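import Pool.Agent.Lib.BSDP.C.Defs

/-!
Module C.Act. The action of the unipotent elements on the quintuples.

Everything is checked by expanding (`Quin.act`, `Quin.invA`, `Quin.invB`, `Quin.Det`) and
`linear_combination (e) * hi` where `hi : 2 * i = 1`; substitute first, e.g. by
`linear_combination (exp := 1) ...`, or eliminate the products `2 * i` by
`have : i = ...`; over a field `i = 1 / 2` and `field_simp; ring` works.

* `det_act_iff`: if `(s, n₁, n₂, n₃)` works for `t` then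
  `(s, n₁ - h n₂ - i h² n₃, n₂ + h n₃, n₃)` works for `act i h t`: the three equations for the new
  quintuple are `e₁`, `e₂ + h e₁`, `e₃ - h e₂ - i h² e₁` in terms of the old ones `e₁, e₂, e₃` (left side
  minus right side), and `2 n₁ n₃ + n₂²` and `invA` are unchanged. The converse: `act i (-h)` is the
  inverse of `act i h` (`act_act`).
* `bd_act`: `natDegree_add_le`, `natDegree_mul_le`; `i` is a constant. For instance
  `h a`: degree `≤ r + (2 m - 2 r) = 2 m - r` (here `r ≤ m`).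
* `act_inj`: the second coordinates `b + h a`, `b + h' a` agree, `a ≠ 0`.
* `map_act`: `Quin.map` commutes with `Quin.act`.
-/

set_option autoImplicit false

open Polynomial

namespace Pool.Agent.BSDP

section
variable {S : Type} [CommRing S]

theorem invA_act {i : S} (hi : 2 * i = 1) (h : S) (t : Quin S) : (t.act i h).invA = t.invA := by
  obtain ⟨a, b, c, d, e⟩ := t
  simp only [Quin.act, Quin.invA]
  linear_combination (a * b * h ^ 3 + (3) * a * c * h ^ 2 + (-2) * a ^ 2 * h ^ 4 * i +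
    (3) * b ^ 2 * h ^ 2) * hi

theorem invB_act {i : S} (hi : 2 * i = 1) (h : S) (t : Quin S) : (t.act i h).invB = t.invB := by
  obtain ⟨a, b, c, d, e⟩ := t
  simp only [Quin.act, Quin.invB]
  linear_combination ((8) * a * b * c * h ^ 3 + (2) * a * b * d * h ^ 2 +
    (-2) * a * b ^ 2 * h ^ 4 * i + (-3) * a * c ^ 2 * h ^ 2 + a ^ 2 * b * h ^ 5 +
    (-2) * a ^ 2 * b * h ^ 5 * i + (-3) * a ^ 2 * c * h ^ 4 + (2) * a ^ 2 * c * h ^ 4 * i +
    (-2) * a ^ 2 * d * h ^ 3 + a ^ 2 * e * h ^ 2 + (-3) * b ^ 2 * c * h ^ 2 +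
    (3) * b ^ 3 * h ^ 3) * hi

theorem act_act_neg {i : S} (hi : 2 * i = 1) (h : S) (t : Quin S) :
    (t.act i h).act i (-h) = t := by
  obtain ⟨a, b, c, d, e⟩ := t
  simp only [Quin.act, Quin.mk.injEq]
  refine ⟨trivial, by ring, ?_, ?_, ?_⟩
  · linear_combination ((-1) * a * h ^ 2) * hi
  · linear_combination ((-3) * b * h ^ 2) * hi
  · linear_combination (a * h ^ 4 + a * h ^ 4 * i + (-3) * b * h ^ 3) * hi

theorem act_inj [IsDomain S] {i h h' : S} {t : Quin S} (ha : t.a ≠ 0)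
    (hh : t.act i h = t.act i h') : h = h' := by
  have h1 : t.b + h * t.a = t.b + h' * t.a := congrArg Quin.b hh
  exact mul_right_cancel₀ ha (add_left_cancel h1)

theorem map_act {T : Type} [CommRing T] (φ : S →+* T) (i h : S) (t : Quin S) :
    (t.act i h).map φ = (t.map φ).act (φ i) (φ h) := by
  obtain ⟨a, b, c, d, e⟩ := t
  simp only [Quin.act, Quin.map, Quin.mk.injEq, map_add, map_sub, map_mul, map_pow, map_ofNat,
    and_self]

end

private theorem det_act_aux {F : Type} [Field F] {i : F} (hi : 2 * i = 1) (h : F) (t : Quin F)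
    (ht : t.Det) : (t.act i h).Det := by
  have hA := invA_act hi h t
  obtain ⟨s, n₁, n₂, n₃, e1, e2, e3, hn1, hn2⟩ := ht
  refine ⟨s, n₁ - h * n₂ - i * h ^ 2 * n₃, n₂ + h * n₃, n₃, ?_, ?_, ?_, ?_, ?_⟩
  · simp only [Quin.act]
    linear_combination e1 + ((-1) * t.a * h ^ 2 * n₃) * hi
  · simp only [Quin.act]
    linear_combination e2 + h * e1 + (t.a * h ^ 2 * n₂ + (-2) * t.b * h ^ 2 * n₃) * hi
  · simp only [Quin.act]
    linear_combination e3 - h * e2 - i * h ^ 2 * e1 +
      (t.a * h ^ 4 * i * n₃ + (-1) * t.b * h ^ 2 * n₂ + (-1) * t.b * h ^ 3 * n₃) * hi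
  · rw [hA]; exact hn1
  · rw [hA]
    have e : 2 * (n₁ - h * n₂ - i * h ^ 2 * n₃) * n₃ + (n₂ + h * n₃) ^ 2 =
        2 * n₁ * n₃ + n₂ ^ 2 := by
      linear_combination ((-1) * h ^ 2 * n₃ ^ 2) * hi
    rw [e]; exact hn2

theorem det_act_iff {F : Type} [Field F] {i : F} (hi : 2 * i = 1) (h : F) (t : Quin F) :
    (t.act i h).Det ↔ t.Det := by
  refine ⟨fun H => ?_, det_act_aux hi h t⟩
  have := det_act_aux hi (-h) _ H
  rwa [act_act_neg hi] at this

variable {k : Type} [Field k]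

theorem undet_act_iff (h2 : (2 : k) ≠ 0) (V : Finset k[X]) (h : k[X]) (t : Quin k[X]) :
    Undet V (t.act (C 2⁻¹) h) ↔ Undet V t := by
  have hi : (2 : k[X]) * C 2⁻¹ = 1 := by
    rw [← C_ofNat, ← C_mul, mul_inv_cancel₀ h2, C_1]
  unfold Undet
  refine forall_congr' fun π => forall_congr' fun _ => forall_congr' fun hπ => ?_
  haveI : Fact (Irreducible π) := ⟨hπ⟩
  refine not_congr ?_
  rw [map_act]
  refine det_act_iff ?_ _ _
  have := congrArg (AdjoinRoot.mk π) hi
  simpa only [map_mul, map_ofNat, map_one] using this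

private theorem nd_add {p q : k[X]} {n : ℕ} (hp : p.natDegree ≤ n) (hq : q.natDegree ≤ n) :
    (p + q).natDegree ≤ n := (natDegree_add_le p q).trans (max_le hp hq)

private theorem nd_sub {p q : k[X]} {n : ℕ} (hp : p.natDegree ≤ n) (hq : q.natDegree ≤ n) :
    (p - q).natDegree ≤ n := (natDegree_sub_le p q).trans (max_le hp hq)

private theorem nd_mul {p q : k[X]} {n a b : ℕ} (hp : p.natDegree ≤ a) (hq : q.natDegree ≤ b)
    (hn : a + b ≤ n) : (p * q).natDegree ≤ n :=
  (natDegree_mul_le.trans (add_le_add hp hq)).trans hn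

theorem bd_act {m r : ℕ} (hr : r ≤ m) {h : k[X]} (hh : h.natDegree ≤ r) {t : Quin k[X]}
    (ht : Bd m r t) : Bd m r (t.act (C 2⁻¹) h) := by
  obtain ⟨ha, hb, hc, hd, he⟩ := ht
  have h2 : (h ^ 2).natDegree ≤ 2 * r := natDegree_pow_le.trans (Nat.mul_le_mul_left 2 hh)
  have h3 : (h ^ 3).natDegree ≤ 3 * r := natDegree_pow_le.trans (Nat.mul_le_mul_left 3 hh)
  have h4 : (h ^ 4).natDegree ≤ 4 * r := natDegree_pow_le.trans (Nat.mul_le_mul_left 4 hh)
  have c0 : ∀ c : k, (C c : k[X]).natDegree ≤ 0 := fun c => (natDegree_C c).le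
  have cc0 : ∀ c : k, ((C c : k[X]) ^ 2).natDegree ≤ 0 := fun c => by
    rw [← C_pow]; exact c0 _
  have e2 : (2 : k[X]).natDegree ≤ 0 := by rw [← C_ofNat]; exact c0 _
  have e3 : (3 : k[X]).natDegree ≤ 0 := by rw [← C_ofNat]; exact c0 _
  refine ⟨ha, ?_, ?_, ?_, ?_⟩
  · exact nd_add hb (nd_mul hh ha (by omega))
  · refine nd_sub (nd_sub hc (nd_mul hh hb (by omega))) ?_
    exact nd_mul (nd_mul (c0 _) h2 (le_refl (0 + 2 * r))) ha (by omega)
  · refine nd_sub (nd_sub (nd_add hd ?_) ?_) ?_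
    · exact nd_mul (nd_mul e3 hh (le_refl (0 + r))) hc (by omega)
    · exact nd_mul (nd_mul (nd_mul e3 (c0 _) (le_refl (0 + 0))) h2 (le_refl (0 + 0 + 2 * r))) hb
        (by omega)
    · exact nd_mul (nd_mul (c0 _) h3 (le_refl (0 + 3 * r))) ha (by omega)
  · refine nd_add (nd_add (nd_sub (nd_sub he ?_) ?_) ?_) ?_
    · exact nd_mul (nd_mul e2 hh (le_refl (0 + r))) hd (by omega)
    · exact nd_mul (nd_mul e3 h2 (le_refl (0 + 2 * r))) hc (by omega)
    · exact nd_mul h3 hb (by omega)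
    · exact nd_mul (nd_mul (cc0 _) h4 (le_refl (0 + 4 * r))) ha (by omega)

end Pool.Agent.BSDP
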