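import Pool.Agent.Lib.BSDP.C.Defs

/-!
Module C.Cong. Counting polynomials with conditions, over a finite field `k` with `q` elements.

* `card_natDegree_le`: `Polynomial.degreeLT`/`Polynomial.degreeLTEquiv` (`k[X]_n ≃ (Fin n → k)`),
  `natDegree ≤ n` iff `degree < n + 1` (`Polynomial.natDegree_lt_iff_degree_lt`-like; mind `0`).
* `card_top`: `f ↦ f + C a * X ^ n` from the `f` with `degree < n`.
* `card_top_mod`: divide by the monic `M` of degree `D ≤ n`: `f = f %ₘ M + M * (f /ₘ M)`; the remainder
  is `R %ₘ M` (as `M ∣ f - R`), the quotient `g` satisfies `g.natDegree ≤ n - D` and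
  `g.coeff (n - D) = f.coeff n` (if `D ≥ 1` the remainder has degree `< D ≤ n`; if `D = 0` then `M = 1`
  and the remainder is `0`; the leading part of `M * g` is that of `X ^ D * g`, `M` monic:
  `Polynomial.coeff_mul_of_natDegree_le`, `coeff_mul_degree_add_degree`-like); so the set is in bijection
  with `{g | Top (n - D) a g}`.
* `top_mod_unique`: `M ∣ f - f'` and `f - f'` has degree at most `n < D`.
-/

set_option autoImplicit false

open Polynomial

namespace Pool.Agent.BSDP

variable {k : Type} [Field k]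

private theorem natDegree_le_iff' (f : k[X]) (n : ℕ) : f.natDegree ≤ n ↔ f.degree < ((n + 1 : ℕ) : WithBot ℕ) := by
  rw [← Nat.lt_succ_iff, Nat.succ_eq_add_one]
  by_cases hf : f = 0
  · subst hf
    simp
  · rw [Polynomial.natDegree_lt_iff_degree_lt hf]

private theorem finite_degree_lt [Finite k] (n : ℕ) : Finite {f : k[X] // f.degree < n} := by
  have : Finite (Polynomial.degreeLT k n) :=
    Finite.of_equiv _ (Polynomial.degreeLTEquiv k n).symm.toEquiv
  refine Finite.of_injective (fun f : {f : k[X] // f.degree < n} =>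
    (⟨f.1, Polynomial.mem_degreeLT.2 f.2⟩ : Polynomial.degreeLT k n)) ?_
  intro f g h
  exact Subtype.ext (congrArg (fun x : Polynomial.degreeLT k n => (x : k[X])) h)

theorem finite_natDegree_le' [Finite k] (n : ℕ) : {f : k[X] | f.natDegree ≤ n}.Finite := by
  have h := finite_degree_lt (k := k) (n + 1)
  have h2 : {f : k[X] | f.natDegree ≤ n} = {f : k[X] | f.degree < ((n + 1 : ℕ) : WithBot ℕ)} := by
    ext f
    exact natDegree_le_iff' f n
  rw [h2]
  exact @Set.toFinite _ _ h

theorem card_degree_lt [Finite k] (n : ℕ) :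
    Nat.card {f : k[X] // f.degree < n} = Nat.card k ^ n := by
  have e : {f : k[X] // f.degree < n} ≃ (Fin n → k) :=
    (Equiv.subtypeEquivRight (fun f => (Polynomial.mem_degreeLT (f := f) (n := n)).symm)).trans
      (Polynomial.degreeLTEquiv k n).toEquiv
  rw [Nat.card_congr e, Nat.card_fun, Nat.card_fin]

theorem card_natDegree_le [Finite k] (n : ℕ) :
    Nat.card {f : k[X] // f.natDegree ≤ n} = Nat.card k ^ (n + 1) := by
  rw [← card_degree_lt (k := k) (n + 1)]
  exact Nat.card_congr (Equiv.subtypeEquivRight (fun f => natDegree_le_iff' f n))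

private theorem top_iff (n : ℕ) (a : k) (f : k[X]) :
    Top n a f ↔ (f - C a * X ^ n).degree < (n : WithBot ℕ) := by
  unfold Top
  rw [Polynomial.degree_lt_iff_coeff_zero]
  constructor
  · rintro ⟨h1, h2⟩ j hj
    rcases Nat.eq_or_lt_of_le hj with h | h
    · subst h
      simp [h2]
    · rw [coeff_sub, Polynomial.coeff_eq_zero_of_natDegree_lt (lt_of_le_of_lt h1 h)]
      simp [Nat.ne_of_gt h]
  · intro h
    constructor
    · rw [Polynomial.natDegree_le_iff_coeff_eq_zero]
      intro j hj
      have h1 := h j hj.le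
      rw [coeff_sub] at h1
      have h2 : (C a * X ^ n : k[X]).coeff j = 0 := by
        simp [Nat.ne_of_gt hj]
      rw [h2, sub_zero] at h1
      exact h1
    · have h1 := h n le_rfl
      rw [coeff_sub] at h1
      simpa [sub_eq_zero] using h1

theorem card_top [Finite k] (n : ℕ) (a : k) :
    Nat.card {f : k[X] // Top n a f} = Nat.card k ^ n := by
  rw [← card_degree_lt (k := k) n]
  refine Nat.card_congr ((Equiv.subRight (C a * X ^ n)).subtypeEquiv (fun f => ?_))
  exact top_iff n a f

private theorem top_mul (M g : k[X]) (hM : M.Monic) {n : ℕ} (hn : M.natDegree ≤ n) (a : k)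
    (r : k[X]) (hr : r.degree < M.degree) :
    Top n a (r + M * g) ↔ Top (n - M.natDegree) a g := by
  obtain ⟨e, rfl⟩ := Nat.exists_eq_add_of_le hn
  rw [Nat.add_sub_cancel_left]
  have hMd : M.degree = (M.natDegree : WithBot ℕ) := Polynomial.degree_eq_natDegree hM.ne_zero
  have hr0 : ∀ j, M.natDegree ≤ j → r.coeff j = 0 := fun j hj =>
    Polynomial.coeff_eq_zero_of_degree_lt (lt_of_lt_of_le (hMd ▸ hr) (by exact_mod_cast hj))
  unfold Top
  constructor
  · rintro ⟨h1, h2⟩
    have hg : g.natDegree ≤ e := by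
      by_contra hlt
      push Not at hlt
      have hg0 : g ≠ 0 := by
        rintro rfl
        simp at hlt
      have h3 : (M * g).coeff (M.natDegree + g.natDegree) = g.leadingCoeff := by
        rw [Polynomial.coeff_mul_degree_add_degree, hM.leadingCoeff, one_mul]
      have h4 : (r + M * g).coeff (M.natDegree + g.natDegree) = g.leadingCoeff := by
        rw [coeff_add, h3, hr0 _ (Nat.le_add_right _ _), zero_add]
      rw [Polynomial.coeff_eq_zero_of_natDegree_lt (by omega)] at h4
      exact hg0 (Polynomial.leadingCoeff_eq_zero.1 h4.symm)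
    refine ⟨hg, ?_⟩
    rw [coeff_add, hr0 _ (Nat.le_add_right _ _), zero_add,
      Polynomial.coeff_mul_add_eq_of_natDegree_le le_rfl hg, hM.coeff_natDegree, one_mul] at h2
    exact h2
  · rintro ⟨h1, h2⟩
    constructor
    · refine (Polynomial.natDegree_add_le _ _).trans (max_le ?_ ?_)
      · refine Polynomial.natDegree_le_iff_coeff_eq_zero.2 (fun j hj => hr0 j (by omega))
      · exact (Polynomial.natDegree_mul_le).trans (by omega)
    · rw [coeff_add, hr0 _ (Nat.le_add_right _ _), zero_add,
        Polynomial.coeff_mul_add_eq_of_natDegree_le le_rfl h1, hM.coeff_natDegree, one_mul, h2]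

theorem card_top_mod [Finite k] {M : k[X]} (hM : M.Monic) {n : ℕ} (hn : M.natDegree ≤ n) (a : k)
    (R : k[X]) :
    Nat.card {f : k[X] // Top n a f ∧ M ∣ f - R} = Nat.card k ^ (n - M.natDegree) := by
  rw [← card_top (k := k) (n - M.natDegree) a]
  have hr : (R %ₘ M).degree < M.degree := Polynomial.degree_modByMonic_lt R hM
  symm
  refine Nat.card_congr
    { toFun := fun g => ⟨R %ₘ M + M * g.1, (top_mul M g.1 hM hn a _ hr).2 g.2, ?_⟩
      invFun := fun f => ⟨f.1 /ₘ M, ?_⟩
      left_inv := ?_
      right_inv := ?_ }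
  · have h1 := Polynomial.modByMonic_add_div R M
    refine ⟨g.1 - R /ₘ M, ?_⟩
    linear_combination h1
  · have h1 := Polynomial.modByMonic_add_div f.1 M
    have h2 : f.1 %ₘ M = R %ₘ M := by
      rw [← sub_eq_zero, ← Polynomial.sub_modByMonic]
      exact (Polynomial.modByMonic_eq_zero_iff_dvd hM).2 f.2.2
    rw [h2] at h1
    have h3 := f.2.1
    rw [← h1] at h3
    exact (top_mul M _ hM hn a _ hr).1 h3
  · intro g
    refine Subtype.ext ?_
    show (R %ₘ M + M * g.1) /ₘ M = g.1
    exact (Polynomial.div_modByMonic_unique g.1 (R %ₘ M) hM ⟨rfl, hr⟩).1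
  · intro f
    refine Subtype.ext ?_
    have h1 := Polynomial.modByMonic_add_div f.1 M
    have h2 : f.1 %ₘ M = R %ₘ M := by
      rw [← sub_eq_zero, ← Polynomial.sub_modByMonic]
      exact (Polynomial.modByMonic_eq_zero_iff_dvd hM).2 f.2.2
    rw [h2] at h1
    exact h1

theorem top_mod_unique {M : k[X]} {n : ℕ} (hn : n < M.natDegree) {f f' : k[X]}
    (hf : f.natDegree ≤ n) (hf' : f'.natDegree ≤ n) (h : M ∣ f - f') : f = f' := by
  by_contra hne
  have h0 : f - f' ≠ 0 := sub_ne_zero.2 hne
  have h1 := Polynomial.natDegree_le_of_dvd h h0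
  have h2 := (Polynomial.natDegree_sub_le f f').trans (max_le hf hf')
  omega

/-- both cases together -/
theorem card_top_mod_le [Finite k] {M : k[X]} (hM : M.Monic) (n : ℕ) (a : k) (R : k[X]) :
    Nat.card {f : k[X] // Top n a f ∧ M ∣ f - R} ≤ Nat.card k ^ (n - M.natDegree) := by
  rcases le_or_gt M.natDegree n with hn | hn
  · exact (card_top_mod hM hn a R).le
  · rw [Nat.sub_eq_zero_of_le hn.le, pow_zero]
    have : Subsingleton {f : k[X] // Top n a f ∧ M ∣ f - R} := by
      refine ⟨fun f f' => Subtype.ext ?_⟩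
      refine top_mod_unique hn f.2.1.1 f'.2.1.1 ?_
      have := dvd_sub f.2.2 f'.2.2
      rwa [sub_sub_sub_cancel_right] at this
    exact Finite.card_le_one_iff_subsingleton.2 this

end Pool.Agent.BSDP
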