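import Pool.Agent.Lib.BSDP.C.DetCard
import Pool.Agent.Lib.BSDP.C.Cong

/-!
Module C.Crt. The number of the quintuples of polynomials which are not detected at the primes of a
finite set `V`.

* `nondet_card`: for `π` monic irreducible of degree `d`, `F = AdjoinRoot π` is a finite field with
  `q ^ d` elements in which `2, 3 ≠ 0`; by `det_card`
  `6 #{t : Quin F | not Det} ≤ 5 (q ^ d) ^ 5` (`Quin F ≃ F × F × F × F × F`).
* `low_card` by induction on `V` (`Finset.induction_on`): for `V = insert π V'`, `M = π M'`, a quintuple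
  `t` with all degrees `< deg M` is determined by `t mod π` (in `Quin (AdjoinRoot π)`) and the quintuple of
  the remainders modulo `M'` (all degrees `< deg M'`): Chinese remainders, `π` and `M'` are coprime
  (distinct monic irreducible polynomials), a polynomial of degree `< deg M` divisible by `π` and `M'` is
  zero. `Undet (insert π V') t` says that `t mod π` is not detected and `Undet V' t`, and the
  latter depends only on the remainders modulo `M'`. So the number is at most
  `#{not Det in Quin (AdjoinRoot π)} * #{…V'…}`.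
* `undetected_card`: divide the coordinates by `M = ∏ π` (monic): a quintuple in `Box n` is determined
  by the quintuple of the remainders (degrees `< deg M`, the same condition `Undet V`) and the quintuple of
  the quotients (degrees at most `n i - deg M`, or zero if `n i + 1 = deg M`): there are
  `q ^ (n i + 1 - deg M)` possible quotients. If `deg M = 0` then `V` is empty. Total at most
  `(5/6)^|V| q^(5 deg M) ∏ q^(n i + 1 - deg M)`.
-/

set_option autoImplicit false

open Polynomial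

namespace Pool.Agent.BSDP

variable {k : Type} [Field k]

/-- a quintuple is five elements -/
def quinEquiv (S : Type) : Quin S ≃ S × S × S × S × S where
  toFun t := (t.a, t.b, t.c, t.d, t.e)
  invFun p := ⟨p.1, p.2.1, p.2.2.1, p.2.2.2.1, p.2.2.2.2⟩
  left_inv _ := rfl
  right_inv _ := rfl

theorem card_adjoinRoot [Finite k] {π : k[X]} (hm : π.Monic) :
    Nat.card (AdjoinRoot π) = Nat.card k ^ π.natDegree := by
  have h1 := (AdjoinRoot.powerBasis' hm).finrank
  have h2 : (AdjoinRoot.powerBasis' hm).dim = π.natDegree := rfl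
  have := (AdjoinRoot.powerBasis' hm).finite
  rw [Module.natCard_eq_pow_finrank (K := k) (V := AdjoinRoot π), h1, h2]

theorem nondet_card [Finite k] (h2 : (2 : k) ≠ 0) (h3 : (3 : k) ≠ 0) {π : k[X]} (hm : π.Monic)
    (hπ : Irreducible π) :
    haveI : Fact (Irreducible π) := ⟨hπ⟩
    6 * Nat.card {t : Quin (AdjoinRoot π) // ¬ t.Det} ≤
      5 * Nat.card k ^ (5 * π.natDegree) := by
  have : Fact (Irreducible π) := ⟨hπ⟩
  show 6 * Nat.card {t : Quin (AdjoinRoot π) // ¬ t.Det} ≤ 5 * Nat.card k ^ (5 * π.natDegree)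
  have := (AdjoinRoot.powerBasis' hm).finite
  have hfin : Finite (AdjoinRoot π) := Module.finite_of_finite k
  have : Finite (Quin (AdjoinRoot π)) := Finite.of_equiv _ (quinEquiv (AdjoinRoot π)).symm
  have hc := card_adjoinRoot (k := k) hm
  have h2' : (2 : AdjoinRoot π) ≠ 0 := by
    have h := (AdjoinRoot.of π).injective.ne h2
    rwa [map_ofNat, map_zero] at h
  have h3' : (3 : AdjoinRoot π) ≠ 0 := by
    have h := (AdjoinRoot.of π).injective.ne h3
    rwa [map_ofNat, map_zero] at h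
  have hd := det_card (F := AdjoinRoot π) h2' h3'
  have ht : Nat.card (Quin (AdjoinRoot π)) = Nat.card (AdjoinRoot π) ^ 5 := by
    rw [Nat.card_congr (quinEquiv (AdjoinRoot π))]
    simp only [Nat.card_prod]
    ring
  have hs : Nat.card {t : Quin (AdjoinRoot π) // t.Det} + Nat.card {t : Quin (AdjoinRoot π) // ¬ t.Det} =
      Nat.card (Quin (AdjoinRoot π)) := by
    classical
    rw [← Nat.card_sum]
    exact Nat.card_congr (Equiv.sumCompl _)
  have hp : Nat.card k ^ (5 * π.natDegree) = Nat.card (AdjoinRoot π) ^ 5 := by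
    rw [hc, ← pow_mul, mul_comm]
  rw [hp]
  omega

/-- the remainders modulo `M` -/
private noncomputable def crtRem (M : k[X]) (t : Quin k[X]) : Quin k[X] :=
  ⟨t.a %ₘ M, t.b %ₘ M, t.c %ₘ M, t.d %ₘ M, t.e %ₘ M⟩

private theorem crt_mk {π M : k[X]} (h : π ∣ M) (f : k[X]) :
    AdjoinRoot.mk π (f %ₘ M) = AdjoinRoot.mk π f := by
  rw [AdjoinRoot.mk_eq_mk]
  have h1 : f %ₘ M - f = M * (-(f /ₘ M)) := by
    rw [Polynomial.modByMonic_eq_sub_mul_div]
    ring
  rw [h1]
  exact h.mul_right _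

private theorem crt_undet {V : Finset k[X]} {M : k[X]} (hM : ∀ π ∈ V, π ∣ M) {t : Quin k[X]}
    (h : Undet V t) : Undet V (crtRem M t) := by
  intro π hπ hi
  have : Fact (Irreducible π) := ⟨hi⟩
  have h1 : (crtRem M t).map (AdjoinRoot.mk π) = t.map (AdjoinRoot.mk π) := by
    ext
    all_goals exact crt_mk (hM π hπ) _
  show ¬ ((crtRem M t).map (AdjoinRoot.mk π)).Det
  rw [h1]
  exact h π hπ hi

private theorem crt_finite [Finite k] (D : ℕ) (P : Quin k[X] → Prop) :
    Finite {t : Quin k[X] // (t.a.degree < D ∧ t.b.degree < D ∧ t.c.degree < D ∧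
      t.d.degree < D ∧ t.e.degree < D) ∧ P t} := by
  have : Nonempty k := ⟨0⟩
  have : Finite {f : k[X] // f.degree < D} := by
    apply Nat.finite_of_card_ne_zero
    rw [card_degree_lt]
    exact pow_ne_zero _ Nat.card_pos.ne'
  let F : {t : Quin k[X] // (t.a.degree < D ∧ t.b.degree < D ∧ t.c.degree < D ∧
      t.d.degree < D ∧ t.e.degree < D) ∧ P t} → {f : k[X] // f.degree < D} × {f : k[X] // f.degree < D} ×
        {f : k[X] // f.degree < D} × {f : k[X] // f.degree < D} × {f : k[X] // f.degree < D} :=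
    fun t => (⟨t.1.a, t.2.1.1⟩, ⟨t.1.b, t.2.1.2.1⟩, ⟨t.1.c, t.2.1.2.2.1⟩, ⟨t.1.d, t.2.1.2.2.2.1⟩,
      ⟨t.1.e, t.2.1.2.2.2.2⟩)
  refine Finite.of_injective F ?_
  intro t t' h
  have h1 := congrArg (fun x => (x.1 : k[X])) h
  have h2 := congrArg (fun x => (x.2.1 : k[X])) h
  have h3 := congrArg (fun x => (x.2.2.1 : k[X])) h
  have h4 := congrArg (fun x => (x.2.2.2.1 : k[X])) h
  have h5 := congrArg (fun x => (x.2.2.2.2 : k[X])) h
  exact Subtype.ext (Quin.ext h1 h2 h3 h4 h5)

private theorem crt_inj {π M : k[X]} (hπ : π.Monic) (hM : M.Monic) (hc : IsCoprime π M) {f g : k[X]}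
    (hf : f.degree < (π * M).natDegree) (hg : g.degree < (π * M).natDegree)
    (h1 : AdjoinRoot.mk π f = AdjoinRoot.mk π g) (h2 : f %ₘ M = g %ₘ M) : f = g := by
  rw [AdjoinRoot.mk_eq_mk] at h1
  have h3 : M ∣ f - g := by
    rw [← Polynomial.modByMonic_eq_zero_iff_dvd hM, Polynomial.sub_modByMonic, h2, sub_self]
  have h4 : π * M ∣ f - g := hc.mul_dvd h1 h3
  rw [← sub_eq_zero]
  refine Polynomial.eq_zero_of_dvd_of_degree_lt h4 ?_
  rw [Polynomial.degree_eq_natDegree (hπ.mul hM).ne_zero]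
  exact lt_of_le_of_lt (Polynomial.degree_sub_le _ _) (max_lt hf hg)

theorem low_card [Finite k] (h2 : (2 : k) ≠ 0) (h3 : (3 : k) ≠ 0) (V : Finset k[X])
    (hV : ∀ π ∈ V, π.Monic ∧ Irreducible π) :
    6 ^ V.card * Nat.card {t : Quin k[X] // (t.a.degree < (∏ π ∈ V, π).natDegree ∧
      t.b.degree < (∏ π ∈ V, π).natDegree ∧ t.c.degree < (∏ π ∈ V, π).natDegree ∧
      t.d.degree < (∏ π ∈ V, π).natDegree ∧ t.e.degree < (∏ π ∈ V, π).natDegree) ∧ Undet V t} ≤
      5 ^ V.card * Nat.card k ^ (5 * (∏ π ∈ V, π).natDegree) := by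
  classical
  induction V using Finset.induction_on with
  | empty =>
    rw [Finset.card_empty, pow_zero, pow_zero, one_mul, one_mul, Finset.prod_empty,
      Polynomial.natDegree_one, mul_zero, pow_zero]
    have := crt_finite (k := k) 0 (Undet ∅)
    rw [Finite.card_le_one_iff_subsingleton]
    have h0 : ∀ f : k[X], f.degree < ((0 : ℕ) : WithBot ℕ) → f = 0 := fun f hf => by
      rw [Nat.cast_zero] at hf
      by_contra hne
      exact absurd (Polynomial.zero_le_degree_iff.2 hne) (not_le.2 hf)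
    refine ⟨fun t t' => Subtype.ext (Quin.ext ?_ ?_ ?_ ?_ ?_)⟩
    · rw [h0 _ t.2.1.1, h0 _ t'.2.1.1]
    · rw [h0 _ t.2.1.2.1, h0 _ t'.2.1.2.1]
    · rw [h0 _ t.2.1.2.2.1, h0 _ t'.2.1.2.2.1]
    · rw [h0 _ t.2.1.2.2.2.1, h0 _ t'.2.1.2.2.2.1]
    · rw [h0 _ t.2.1.2.2.2.2, h0 _ t'.2.1.2.2.2.2]
  | insert π V' hπV ih =>
    have hmon := (hV π (Finset.mem_insert_self π V')).1
    have hirr := (hV π (Finset.mem_insert_self π V')).2
    have hV' : ∀ ρ ∈ V', ρ.Monic ∧ Irreducible ρ := fun ρ hρ => hV ρ (Finset.mem_insert_of_mem hρ)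
    have ih' := ih hV'
    have : Fact (Irreducible π) := ⟨hirr⟩
    have := (AdjoinRoot.powerBasis' hmon).finite
    have hfin : Finite (AdjoinRoot π) := Module.finite_of_finite k
    have : Finite (Quin (AdjoinRoot π)) := Finite.of_equiv _ (quinEquiv (AdjoinRoot π)).symm
    set M : k[X] := ∏ ρ ∈ V', ρ with hMdef
    have hM : M.Monic := Polynomial.monic_prod_of_monic _ _ fun ρ hρ => (hV' ρ hρ).1
    have hdvd : ∀ ρ ∈ V', ρ ∣ M := fun ρ hρ => Finset.dvd_prod_of_mem _ hρ
    have hcop : IsCoprime π M := by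
      refine IsCoprime.prod_right fun ρ hρ => ?_
      refine (hirr.coprime_iff_not_dvd).2 fun hd => ?_
      have h1 : π = ρ := Polynomial.eq_of_monic_of_associated hmon (hV' ρ hρ).1
        ((hirr.associated_of_dvd (hV' ρ hρ).2 hd))
      exact hπV (h1 ▸ hρ)
    rw [Finset.prod_insert hπV, ← hMdef]
    have := crt_finite (k := k) M.natDegree (Undet V')
    let Φ : {t : Quin k[X] // (t.a.degree < (π * M).natDegree ∧
      t.b.degree < (π * M).natDegree ∧ t.c.degree < (π * M).natDegree ∧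
      t.d.degree < (π * M).natDegree ∧ t.e.degree < (π * M).natDegree) ∧ Undet (insert π V') t} →
      {u : Quin (AdjoinRoot π) // ¬ u.Det} × {t : Quin k[X] // (t.a.degree < M.natDegree ∧
      t.b.degree < M.natDegree ∧ t.c.degree < M.natDegree ∧
      t.d.degree < M.natDegree ∧ t.e.degree < M.natDegree) ∧ Undet V' t} := fun t =>
        (⟨t.1.map (AdjoinRoot.mk π), t.2.2 π (Finset.mem_insert_self π V') hirr⟩,
          ⟨crtRem M t.1, by
            rw [← Polynomial.degree_eq_natDegree hM.ne_zero]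
            exact ⟨Polynomial.degree_modByMonic_lt _ hM, Polynomial.degree_modByMonic_lt _ hM,
              Polynomial.degree_modByMonic_lt _ hM, Polynomial.degree_modByMonic_lt _ hM,
              Polynomial.degree_modByMonic_lt _ hM⟩,
            crt_undet hdvd fun ρ hρ => t.2.2 ρ (Finset.mem_insert_of_mem hρ)⟩)
    have hΦ : Function.Injective Φ := by
      intro t t' h
      have h1 : t.1.map (AdjoinRoot.mk π) = t'.1.map (AdjoinRoot.mk π) :=
        congrArg (fun x => (x.1 : Quin (AdjoinRoot π))) h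
      have h2 : crtRem M t.1 = crtRem M t'.1 := congrArg (fun x => (x.2 : Quin k[X])) h
      obtain ⟨ta, tb, tc, td, te⟩ := t.2.1
      obtain ⟨ta', tb', tc', td', te'⟩ := t'.2.1
      refine Subtype.ext (Quin.ext ?_ ?_ ?_ ?_ ?_)
      · exact crt_inj hmon hM hcop ta ta' (congrArg Quin.a h1) (congrArg Quin.a h2)
      · exact crt_inj hmon hM hcop tb tb' (congrArg Quin.b h1) (congrArg Quin.b h2)
      · exact crt_inj hmon hM hcop tc tc' (congrArg Quin.c h1) (congrArg Quin.c h2)
      · exact crt_inj hmon hM hcop td td' (congrArg Quin.d h1) (congrArg Quin.d h2)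
      · exact crt_inj hmon hM hcop te te' (congrArg Quin.e h1) (congrArg Quin.e h2)
    have hcard := Nat.card_le_card_of_injective Φ hΦ
    rw [Nat.card_prod] at hcard
    have hnd : 6 * Nat.card {t : Quin (AdjoinRoot π) // ¬ t.Det} ≤ 5 * Nat.card k ^ (5 * π.natDegree) :=
      nondet_card h2 h3 hmon hirr
    rw [Finset.card_insert_of_notMem hπV]
    calc 6 ^ (V'.card + 1) * _ ≤ 6 ^ (V'.card + 1) * _ := Nat.mul_le_mul_left _ hcard
      _ = (6 * Nat.card {t : Quin (AdjoinRoot π) // ¬ t.Det}) * (6 ^ V'.card * _) := by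
          rw [pow_succ]
          ring
      _ ≤ (5 * Nat.card k ^ (5 * π.natDegree)) * (5 ^ V'.card * Nat.card k ^ (5 * M.natDegree)) :=
          Nat.mul_le_mul hnd ih'
      _ = 5 ^ (V'.card + 1) * Nat.card k ^ (5 * (π * M).natDegree) := by
          rw [hmon.natDegree_mul hM, pow_succ, mul_add, pow_add]
          ring

theorem undetected_card [Finite k] (h2 : (2 : k) ≠ 0) (h3 : (3 : k) ≠ 0) (V : Finset k[X])
    (hV : ∀ π ∈ V, π.Monic ∧ Irreducible π) (n : Fin 5 → ℕ)
    (hn : ∀ i, (∏ π ∈ V, π).natDegree ≤ n i + 1) :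
    6 ^ V.card * Nat.card {t : Quin k[X] // Box n t ∧ Undet V t} ≤
      5 ^ V.card * Nat.card k ^ (n 0 + n 1 + n 2 + n 3 + n 4 + 5) := by
  classical
  have : Nonempty k := ⟨0⟩
  set M : k[X] := ∏ ρ ∈ V, ρ with hMdef
  have hM : M.Monic := Polynomial.monic_prod_of_monic _ _ fun ρ hρ => (hV ρ hρ).1
  have hdvd : ∀ ρ ∈ V, ρ ∣ M := fun ρ hρ => Finset.dvd_prod_of_mem _ hρ
  have hlow := low_card h2 h3 V hV
  rw [← hMdef] at hlow
  have := crt_finite (k := k) M.natDegree (Undet V)
  have hfin : ∀ N : ℕ, Finite {f : k[X] // f.degree < N} := fun N => by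
    apply Nat.finite_of_card_ne_zero
    rw [card_degree_lt]
    exact pow_ne_zero _ Nat.card_pos.ne'
  have hq : ∀ (N : ℕ) (f : k[X]), f.natDegree ≤ N → (f /ₘ M).degree < ((N + 1 - M.natDegree : ℕ) : WithBot ℕ) := by
    intro N f hf
    by_cases h0 : f /ₘ M = 0
    · rw [h0, Polynomial.degree_zero]
      exact WithBot.bot_lt_coe _
    · rw [Polynomial.degree_eq_natDegree h0, Polynomial.natDegree_divByMonic _ hM]
      have h1 : M.natDegree ≤ f.natDegree := by
        by_contra hlt
        push Not at hlt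
        exact h0 ((Polynomial.divByMonic_eq_zero_iff hM).2 (Polynomial.degree_lt_degree hlt))
      have h2 : f.natDegree - M.natDegree < N + 1 - M.natDegree := by omega
      exact_mod_cast h2
  have hinj : ∀ f g : k[X], f %ₘ M = g %ₘ M → f /ₘ M = g /ₘ M → f = g := by
    intro f g h1 h2
    rw [← Polynomial.modByMonic_add_div f M, ← Polynomial.modByMonic_add_div g M, h1, h2]
  let Φ : {t : Quin k[X] // Box n t ∧ Undet V t} →
      {t : Quin k[X] // (t.a.degree < M.natDegree ∧ t.b.degree < M.natDegree ∧ t.c.degree < M.natDegree ∧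
      t.d.degree < M.natDegree ∧ t.e.degree < M.natDegree) ∧ Undet V t} ×
      {f : k[X] // f.degree < ((n 0 + 1 - M.natDegree : ℕ) : WithBot ℕ)} ×
      {f : k[X] // f.degree < ((n 1 + 1 - M.natDegree : ℕ) : WithBot ℕ)} ×
      {f : k[X] // f.degree < ((n 2 + 1 - M.natDegree : ℕ) : WithBot ℕ)} ×
      {f : k[X] // f.degree < ((n 3 + 1 - M.natDegree : ℕ) : WithBot ℕ)} ×
      {f : k[X] // f.degree < ((n 4 + 1 - M.natDegree : ℕ) : WithBot ℕ)} := fun t =>
        (⟨crtRem M t.1, by
            rw [← Polynomial.degree_eq_natDegree hM.ne_zero]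
            exact ⟨Polynomial.degree_modByMonic_lt _ hM, Polynomial.degree_modByMonic_lt _ hM,
              Polynomial.degree_modByMonic_lt _ hM, Polynomial.degree_modByMonic_lt _ hM,
              Polynomial.degree_modByMonic_lt _ hM⟩,
            crt_undet hdvd t.2.2⟩,
          ⟨t.1.a /ₘ M, hq _ _ t.2.1.1⟩, ⟨t.1.b /ₘ M, hq _ _ t.2.1.2.1⟩, ⟨t.1.c /ₘ M, hq _ _ t.2.1.2.2.1⟩,
          ⟨t.1.d /ₘ M, hq _ _ t.2.1.2.2.2.1⟩, ⟨t.1.e /ₘ M, hq _ _ t.2.1.2.2.2.2⟩)
  have hΦ : Function.Injective Φ := by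
    intro t t' h
    have h1 : crtRem M t.1 = crtRem M t'.1 := congrArg (fun x => (x.1 : Quin k[X])) h
    refine Subtype.ext (Quin.ext ?_ ?_ ?_ ?_ ?_)
    · exact hinj _ _ (congrArg Quin.a h1) (congrArg (fun x => (x.2.1 : k[X])) h)
    · exact hinj _ _ (congrArg Quin.b h1) (congrArg (fun x => (x.2.2.1 : k[X])) h)
    · exact hinj _ _ (congrArg Quin.c h1) (congrArg (fun x => (x.2.2.2.1 : k[X])) h)
    · exact hinj _ _ (congrArg Quin.d h1) (congrArg (fun x => (x.2.2.2.2.1 : k[X])) h)
    · exact hinj _ _ (congrArg Quin.e h1) (congrArg (fun x => (x.2.2.2.2.2 : k[X])) h)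
  have hcard := Nat.card_le_card_of_injective Φ hΦ
  simp only [Nat.card_prod, card_degree_lt] at hcard
  calc 6 ^ V.card * _ ≤ 6 ^ V.card * _ := Nat.mul_le_mul_left _ hcard
    _ = (6 ^ V.card * _) * (Nat.card k ^ (n 0 + 1 - M.natDegree) * (Nat.card k ^ (n 1 + 1 - M.natDegree) *
          (Nat.card k ^ (n 2 + 1 - M.natDegree) * (Nat.card k ^ (n 3 + 1 - M.natDegree) *
            Nat.card k ^ (n 4 + 1 - M.natDegree))))) := by
        rw [mul_assoc]
    _ ≤ (5 ^ V.card * Nat.card k ^ (5 * M.natDegree)) * (Nat.card k ^ (n 0 + 1 - M.natDegree) *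
          (Nat.card k ^ (n 1 + 1 - M.natDegree) *
          (Nat.card k ^ (n 2 + 1 - M.natDegree) * (Nat.card k ^ (n 3 + 1 - M.natDegree) *
            Nat.card k ^ (n 4 + 1 - M.natDegree))))) := Nat.mul_le_mul_right _ hlow
    _ = 5 ^ V.card * Nat.card k ^ (n 0 + n 1 + n 2 + n 3 + n 4 + 5) := by
        rw [mul_assoc, ← pow_add, ← pow_add, ← pow_add, ← pow_add, ← pow_add]
        congr 2
        have e0 := hn 0
        have e1 := hn 1
        have e2 := hn 2
        have e3 := hn 3
        have e4 := hn 4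
        omega

end Pool.Agent.BSDP
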