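import Mathlib

/-!
Module C.Num. Numerical sums.

* `sum_small`: `q ≥ 5`: the term `d = 1` is at most `1/5`; for `d ≥ 2` the term is at most
  `(1/5)^d / 2`, and `∑_{d ≥ 2} (1/5)^d / 2 ≤ 1/40` (geometric sum, e.g. by induction on `n` with the
  stronger bound `9/40 - (1/5)^n / 8`, `n ≥ 1`).
* `sum_large`: each `1/d` is at most `1/(3m)`, and `∑_{d ≤ 6m} q^d ≤ (5/4) q^(6m)`
  (`q^(n+1) + (5/4) q^n ≤ (5/4) q^(n+1)` for `q ≥ 5`).
* `sum_tail`: `∑_{r ∈ range (m + 1)} min-type sum`: geometric series with ratio `1/q ≤ 1/5`.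
-/

set_option autoImplicit false

namespace Pool.Agent.BSDP

private theorem num_inv {q : ℝ} (hq : 5 ≤ q) : 0 < 1 / q ∧ 1 / q ≤ 1 / 5 := by
  have h0 : 0 < q := by linarith
  exact ⟨by positivity, one_div_le_one_div_of_le (by norm_num) hq⟩

theorem sum_small {q : ℝ} (hq : 5 ≤ q) (n : ℕ) :
    ∑ d ∈ Finset.Icc 1 n, (1 / q) ^ d / (d : ℝ) ≤ 9 / 40 := by
  obtain ⟨hx0, hx⟩ := num_inv hq
  have key : ∀ n : ℕ, ∑ d ∈ Finset.Icc 1 (n + 1), (1 / q) ^ d / (d : ℝ) ≤
      9 / 40 - (1 / 5) ^ (n + 1) / 8 := by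
    intro n
    induction n with
    | zero =>
      rw [zero_add, Finset.Icc_self, Finset.sum_singleton]
      norm_num at hx ⊢
      linarith
    | succ n ih =>
      rw [Finset.sum_Icc_succ_top (by omega)]
      have h1 : (1 / q) ^ (n + 1 + 1) ≤ (1 / 5) ^ (n + 1 + 1) := pow_le_pow_left₀ hx0.le hx _
      have h2 : (0 : ℝ) < (1 / q) ^ (n + 1 + 1) := by positivity
      have h3 : (1 / q) ^ (n + 1 + 1) / (((n + 1 + 1 : ℕ)) : ℝ) ≤ (1 / q) ^ (n + 1 + 1) / 2 := by
        apply div_le_div_of_nonneg_left h2.le (by norm_num)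
        push_cast
        have : (0 : ℝ) ≤ n := Nat.cast_nonneg n
        linarith
      have h4 : (1 / 5 : ℝ) ^ (n + 1 + 1) = (1 / 5) ^ (n + 1) / 5 := by
        rw [pow_succ]
        ring
      have h5 : (0 : ℝ) < (1 / 5) ^ (n + 1) := by positivity
      rw [h4] at h1 ⊢
      linarith
  rcases Nat.eq_zero_or_pos n with h | h
  · subst h
    simp
    norm_num
  · obtain ⟨k, rfl⟩ : ∃ k, n = k + 1 := ⟨n - 1, by omega⟩
    have h1 := key k
    have h2 : (0 : ℝ) < (1 / 5) ^ (k + 1) := by positivity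
    linarith

private theorem num_geom {q : ℝ} (hq : 5 ≤ q) (n : ℕ) :
    ∑ d ∈ Finset.range (n + 1), q ^ d ≤ 5 / 4 * q ^ n := by
  induction n with
  | zero => norm_num
  | succ n ih =>
    rw [Finset.sum_range_succ]
    have h0 : 0 < q ^ n := by positivity
    have h1 : q ^ (n + 1) = q ^ n * q := pow_succ q n
    rw [h1]
    nlinarith

theorem sum_large {q : ℝ} (hq : 5 ≤ q) {m : ℕ} (hm : 1 ≤ m) :
    ∑ d ∈ Finset.Ioc (3 * m) (6 * m), q ^ d / (d : ℝ) ≤ 5 / (12 * (m : ℝ)) * q ^ (6 * m) := by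
  have hm0 : (0 : ℝ) < m := by exact_mod_cast hm
  have hq0 : 0 < q := by linarith
  calc ∑ d ∈ Finset.Ioc (3 * m) (6 * m), q ^ d / (d : ℝ)
      ≤ ∑ d ∈ Finset.Ioc (3 * m) (6 * m), q ^ d / (3 * (m : ℝ)) := by
        refine Finset.sum_le_sum fun d hd => ?_
        have h1 := (Finset.mem_Ioc.1 hd).1
        apply div_le_div_of_nonneg_left (by positivity) (by positivity)
        have h2 : (3 * m : ℕ) ≤ d := h1.le
        exact_mod_cast h2
    _ = (∑ d ∈ Finset.Ioc (3 * m) (6 * m), q ^ d) / (3 * (m : ℝ)) := by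
        rw [Finset.sum_div]
    _ ≤ (5 / 4 * q ^ (6 * m)) / (3 * (m : ℝ)) := by
        apply div_le_div_of_nonneg_right _ (by positivity)
        refine le_trans ?_ (num_geom hq (6 * m))
        refine Finset.sum_le_sum_of_subset_of_nonneg (fun d hd => ?_) fun d _ _ => by positivity
        rw [Finset.mem_range]
        have := (Finset.mem_Ioc.1 hd).2
        omega
    _ = 5 / (12 * (m : ℝ)) * q ^ (6 * m) := by
        field_simp
        ring

private theorem num_tail {x : ℝ} (hx0 : 0 < x) (hx : x ≤ 1 / 5) (k j : ℕ) :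
    ∑ r ∈ Finset.range (k + 1 + j), (if r ≤ k then 0 else x ^ r) ≤ x ^ k - x ^ (k + j) := by
  induction j with
  | zero =>
    rw [add_zero, add_zero, sub_self]
    refine le_of_eq (Finset.sum_eq_zero fun r hr => ?_)
    rw [if_pos (by have := Finset.mem_range.1 hr; omega)]
  | succ j ih =>
    rw [← add_assoc, Finset.sum_range_succ, if_neg (by omega)]
    have h1 : x ^ (k + 1 + j) = x ^ (k + j) * x := by
      rw [← pow_succ]
      congr 1
      omega
    have h2 : x ^ (k + (j + 1)) = x ^ (k + j) * x := by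
      rw [← pow_succ]
      congr 1
    have h3 : 0 < x ^ (k + j) := by positivity
    rw [h1, h2]
    nlinarith

/-- `s ≤ m`, `0 ≤ c`: the terms with `r ≤ m - s` have the factor `c`, the others the factor `1`. -/
theorem sum_tail {q c : ℝ} (hq : 5 ≤ q) (hc : 0 ≤ c) {m s : ℕ} (hs : s ≤ m) :
    ∑ r ∈ Finset.range (m + 1), (if r + s ≤ m then c else 1) * (1 / q) ^ r ≤
      2 * c + 2 * q ^ ((s : ℤ) - m) := by
  obtain ⟨hx0, hx⟩ := num_inv hq
  have hq0 : 0 < q := by linarith
  have h1 : ∀ r : ℕ, (if r + s ≤ m then c else 1) * (1 / q) ^ r ≤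
      c * (1 / q) ^ r + (if r ≤ m - s then 0 else (1 / q) ^ r) := by
    intro r
    have h2 : 0 < (1 / q) ^ r := by positivity
    by_cases h : r + s ≤ m
    · rw [if_pos h, if_pos (by omega), add_zero]
    · rw [if_neg h, if_neg (by omega), one_mul]
      have : 0 ≤ c * (1 / q) ^ r := by positivity
      linarith
  have h2 : ∑ r ∈ Finset.range (m + 1), (1 / q) ^ r ≤ 2 := by
    have h3 := num_tail hx0 hx 0 m
    have h4 : ∑ r ∈ Finset.range (m + 1), (1 / q) ^ r =
        1 + ∑ r ∈ Finset.range (0 + 1 + m), (if r ≤ 0 then 0 else (1 / q) ^ r) := by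
      rw [Finset.sum_range_succ', add_comm 1 _]
      have h5 : 0 + 1 + m = m + 1 := by omega
      rw [h5, Finset.sum_range_succ']
      simp
    have h6 : 0 < (1 / q) ^ (0 + m) := by positivity
    rw [h4]
    simp only [pow_zero] at h3
    linarith
  have h3 : ∑ r ∈ Finset.range (m + 1), (if r ≤ m - s then 0 else (1 / q) ^ r) ≤
      q ^ ((s : ℤ) - m) := by
    have h4 := num_tail hx0 hx (m - s) s
    have h5 : m - s + 1 + s = m + 1 := by omega
    rw [h5] at h4
    have h6 : 0 < (1 / q) ^ (m - s + s) := by positivity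
    have h7 : (1 / q) ^ (m - s) = q ^ ((s : ℤ) - m) := by
      rw [one_div, inv_pow, ← zpow_natCast, ← zpow_neg]
      congr 1
      push_cast [Nat.cast_sub hs]
      ring
    rw [h7] at h4
    linarith
  have h4 : 0 < q ^ ((s : ℤ) - m) := zpow_pos hq0 _
  calc ∑ r ∈ Finset.range (m + 1), (if r + s ≤ m then c else 1) * (1 / q) ^ r
      ≤ ∑ r ∈ Finset.range (m + 1), (c * (1 / q) ^ r +
          (if r ≤ m - s then 0 else (1 / q) ^ r)) := Finset.sum_le_sum fun r _ => h1 r
    _ = c * ∑ r ∈ Finset.range (m + 1), (1 / q) ^ r +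
          ∑ r ∈ Finset.range (m + 1), (if r ≤ m - s then 0 else (1 / q) ^ r) := by
        rw [Finset.sum_add_distrib, Finset.mul_sum]
    _ ≤ 2 * c + 2 * q ^ ((s : ℤ) - m) := by nlinarith

end Pool.Agent.BSDP
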