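import Pool.Agent.Lib.BSDP.C.RepCard
import Pool.Agent.Lib.BSDP.C.Crt
import Pool.Agent.Lib.BSDP.C.Num

/-!
Module C.BadCard. The final bound for the number of the pairs with an undetected class.

Let `N r = #{t | Bd m r t ∧ Undet V t}`. By `undetected_card` with
`n = ![2m - 2r, 2m - r, 2m, 2m + r, 2m + 2r]`: if `r + s ≤ m` then `deg ∏ π ≤ s ≤ 2 m - 2 r + 1`
(`2m - 2r ≥ 2 s`), so `N r ≤ (5/6)^|V| q^(10m+5)`; always `N r ≤ q^(10m+5)` (`card_bd`). By
`card_type_le` the number of the pairs of type `r` is at most `N r / q^(r+1)`. `Rep V m A B` is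
`∃ r ≤ m, RepT V m r A B` (by definition), so
`#Rep ≤ ∑_{r ≤ m} N r / q^(r+1) ≤ q^(10m+4) ∑_{r ≤ m} (if r + s ≤ m then (5/6)^|V| else 1) / q^r`
and `sum_tail` gives the result.
-/

set_option autoImplicit false

open Polynomial

namespace Pool.Agent.BSDP

variable {k : Type} [Field k]

theorem rep_iff (V : Finset k[X]) (m : ℕ) (A B : k[X]) :
    Rep V m A B ↔ ∃ r ≤ m, RepT V m r A B := Iff.rfl

private lemma bad_five_le [Finite k] (h2 : (2 : k) ≠ 0) (h3 : (3 : k) ≠ 0) : 5 ≤ Nat.card k := by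
  classical
  haveI := Fintype.ofFinite k
  have h0 : ((Nat.card k : ℕ) : k) = 0 := by
    rw [Nat.card_eq_fintype_card]
    exact FiniteField.cast_card_eq_zero k
  have h1 : 1 < Nat.card k := Finite.one_lt_card
  by_contra hlt
  push Not at hlt
  have hcases : Nat.card k = 2 ∨ Nat.card k = 3 ∨ Nat.card k = 4 := by omega
  rcases hcases with h | h | h
  · rw [h] at h0
    exact h2 (by exact_mod_cast h0)
  · rw [h] at h0
    exact h3 (by exact_mod_cast h0)
  · rw [h] at h0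
    have h4 : (2 : k) * 2 = 0 := by
      have : ((4 : ℕ) : k) = 2 * 2 := by norm_num
      rw [← this]; exact h0
    rcases mul_eq_zero.1 h4 with h5 | h5 <;> exact h2 h5

private lemma bad_rep_eq (V : Finset k[X]) (m : ℕ) :
    {p : k[X] × k[X] | Rep V m p.1 p.2} =
      ⋃ r ∈ Finset.range (m + 1), {p : k[X] × k[X] | RepT V m r p.1 p.2} := by
  ext p
  simp only [Set.mem_setOf_eq, Set.mem_iUnion, Finset.mem_range, exists_prop]
  rw [rep_iff]
  constructor
  · rintro ⟨r, hr, h⟩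
    exact ⟨r, by omega, h⟩
  · rintro ⟨r, hr, h⟩
    exact ⟨r, by omega, h⟩

private lemma bad_sum_le [Finite k] (V : Finset k[X]) (m : ℕ) :
    Nat.card {p : k[X] × k[X] // Rep V m p.1 p.2} ≤
      ∑ r ∈ Finset.range (m + 1), Nat.card {p : k[X] × k[X] // RepT V m r p.1 p.2} := by
  have h1 : Nat.card {p : k[X] × k[X] // Rep V m p.1 p.2} =
      ({p : k[X] × k[X] | Rep V m p.1 p.2} : Set (k[X] × k[X])).ncard := by
    rw [← Nat.card_coe_set_eq]; rfl
  have h2 : ∀ r, Nat.card {p : k[X] × k[X] // RepT V m r p.1 p.2} =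
      ({p : k[X] × k[X] | RepT V m r p.1 p.2} : Set (k[X] × k[X])).ncard := by
    intro r
    rw [← Nat.card_coe_set_eq]; rfl
  rw [h1, bad_rep_eq]
  simp only [h2]
  classical
  have key : ∀ T : Finset ℕ,
      (⋃ r ∈ T, {p : k[X] × k[X] | RepT V m r p.1 p.2} : Set (k[X] × k[X])).ncard ≤
        ∑ r ∈ T, ({p : k[X] × k[X] | RepT V m r p.1 p.2} : Set (k[X] × k[X])).ncard := by
    intro T
    induction T using Finset.induction_on with
    | empty => simp
    | insert a T ha ih =>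
      rw [Finset.sum_insert ha, Finset.set_biUnion_insert]
      exact (Set.ncard_union_le _ _).trans (Nat.add_le_add_left ih _)
  exact key _

theorem finite_rep [Finite k] (V : Finset k[X]) (m : ℕ) :
    {p : k[X] × k[X] | Rep V m p.1 p.2}.Finite := by
  rw [bad_rep_eq]
  exact Set.Finite.biUnion (Finset.finite_toSet _) (fun r _ => finite_repT V m r)

theorem card_undet_le [Finite k] (h2 : (2 : k) ≠ 0) (h3 : (3 : k) ≠ 0) (V : Finset k[X])
    (hV : ∀ π ∈ V, π.Monic ∧ Irreducible π) {s m r : ℕ} (hs : (∏ π ∈ V, π).natDegree ≤ s)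
    (hr : r + s ≤ m) :
    (Nat.card {t : Quin k[X] // Bd m r t ∧ Undet V t} : ℝ) ≤
      (5 / 6) ^ V.card * (Nat.card k : ℝ) ^ (10 * m + 5) := by
  have hn := undetected_card h2 h3 V hV ![2 * m - 2 * r, 2 * m - r, 2 * m, 2 * m + r, 2 * m + 2 * r]
    (by
      intro i
      fin_cases i <;> simp <;> omega)
  have hE : {t : Quin k[X] // Box ![2 * m - 2 * r, 2 * m - r, 2 * m, 2 * m + r, 2 * m + 2 * r] t ∧
      Undet V t} = {t : Quin k[X] // Bd m r t ∧ Undet V t} := rfl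
  rw [hE] at hn
  have hexp : (![2 * m - 2 * r, 2 * m - r, 2 * m, 2 * m + r, 2 * m + 2 * r] : Fin 5 → ℕ) 0 +
      (![2 * m - 2 * r, 2 * m - r, 2 * m, 2 * m + r, 2 * m + 2 * r] : Fin 5 → ℕ) 1 +
      (![2 * m - 2 * r, 2 * m - r, 2 * m, 2 * m + r, 2 * m + 2 * r] : Fin 5 → ℕ) 2 +
      (![2 * m - 2 * r, 2 * m - r, 2 * m, 2 * m + r, 2 * m + 2 * r] : Fin 5 → ℕ) 3 +
      (![2 * m - 2 * r, 2 * m - r, 2 * m, 2 * m + r, 2 * m + 2 * r] : Fin 5 → ℕ) 4 + 5 =
      10 * m + 5 := by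
    show (2 * m - 2 * r) + (2 * m - r) + (2 * m) + (2 * m + r) + (2 * m + 2 * r) + 5 = _
    omega
  rw [hexp] at hn
  have hnR : (6 : ℝ) ^ V.card * (Nat.card {t : Quin k[X] // Bd m r t ∧ Undet V t} : ℝ) ≤
      5 ^ V.card * (Nat.card k : ℝ) ^ (10 * m + 5) := by exact_mod_cast hn
  rw [div_pow, div_mul_eq_mul_div, le_div_iff₀ (by positivity)]
  linarith

theorem bad_card [Finite k] (h2 : (2 : k) ≠ 0) (h3 : (3 : k) ≠ 0) (V : Finset k[X])
    (hV : ∀ π ∈ V, π.Monic ∧ Irreducible π) {s m : ℕ} (hs : (∏ π ∈ V, π).natDegree ≤ s)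
    (hm : s ≤ m) :
    (Nat.card {p : k[X] × k[X] // Rep V m p.1 p.2} : ℝ) ≤
      (2 * (5 / 6) ^ V.card + 2 * (Nat.card k : ℝ) ^ ((s : ℤ) - m)) *
        (Nat.card k : ℝ) ^ (10 * m + 4) := by
  have hq5 : (5 : ℝ) ≤ (Nat.card k : ℝ) := by exact_mod_cast bad_five_le h2 h3
  have hqpos : (0 : ℝ) < (Nat.card k : ℝ) := by linarith
  have hc : (0 : ℝ) ≤ (5 / 6) ^ V.card := by positivity
  have hterm : ∀ r ∈ Finset.range (m + 1),
      (Nat.card {p : k[X] × k[X] // RepT V m r p.1 p.2} : ℝ) ≤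
        ((if r + s ≤ m then (5 / 6 : ℝ) ^ V.card else 1) * (1 / (Nat.card k : ℝ)) ^ r) *
          (Nat.card k : ℝ) ^ (10 * m + 4) := by
    intro r hr
    have hrm : r ≤ m := by
      have := Finset.mem_range.1 hr
      omega
    have h1 := card_type_le h2 V hrm
    have h1R : (Nat.card k : ℝ) ^ (r + 1) *
        (Nat.card {p : k[X] × k[X] // RepT V m r p.1 p.2} : ℝ) ≤
        (Nat.card {t : Quin k[X] // Bd m r t ∧ Undet V t} : ℝ) := by exact_mod_cast h1
    have h2R : (Nat.card {t : Quin k[X] // Bd m r t ∧ Undet V t} : ℝ) ≤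
        (if r + s ≤ m then (5 / 6 : ℝ) ^ V.card else 1) * (Nat.card k : ℝ) ^ (10 * m + 5) := by
      split_ifs with hrs
      · exact card_undet_le h2 h3 V hV hs hrs
      · rw [one_mul]
        have hfin : {t : Quin k[X] | Bd m r t}.Finite :=
          finite_box ![2 * m - 2 * r, 2 * m - r, 2 * m, 2 * m + r, 2 * m + 2 * r]
        have h3' : Nat.card {t : Quin k[X] // Bd m r t ∧ Undet V t} ≤
            Nat.card {t : Quin k[X] // Bd m r t} := by
          haveI : Finite {t : Quin k[X] // Bd m r t} := hfin.to_subtype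
          exact Nat.card_le_card_of_injective (fun t => (⟨t.1, t.2.1⟩ : {t : Quin k[X] // Bd m r t}))
            (fun x y hxy => Subtype.ext (congrArg (fun z : {t : Quin k[X] // Bd m r t} => z.1) hxy))
        rw [card_bd hrm] at h3'
        exact_mod_cast h3'
    have h3R := h1R.trans h2R
    have hpow : (Nat.card k : ℝ) ^ (10 * m + 5) =
        (Nat.card k : ℝ) ^ (10 * m + 4) * (Nat.card k : ℝ) := by
      rw [← pow_succ]
    have hpow2 : (Nat.card k : ℝ) ^ (r + 1) = (Nat.card k : ℝ) ^ r * (Nat.card k : ℝ) := pow_succ _ _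
    rw [hpow, hpow2] at h3R
    have hqr : (0 : ℝ) < (Nat.card k : ℝ) ^ r := by positivity
    rw [one_div, inv_pow]
    have h4 : (Nat.card {p : k[X] × k[X] // RepT V m r p.1 p.2} : ℝ) * (Nat.card k : ℝ) ^ r ≤
        (if r + s ≤ m then (5 / 6 : ℝ) ^ V.card else 1) * (Nat.card k : ℝ) ^ (10 * m + 4) := by
      have h5 : ((Nat.card {p : k[X] × k[X] // RepT V m r p.1 p.2} : ℝ) * (Nat.card k : ℝ) ^ r) *
          (Nat.card k : ℝ) ≤
          ((if r + s ≤ m then (5 / 6 : ℝ) ^ V.card else 1) * (Nat.card k : ℝ) ^ (10 * m + 4)) *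
          (Nat.card k : ℝ) := by linarith
      exact le_of_mul_le_mul_right h5 hqpos
    have h6 : (Nat.card {p : k[X] × k[X] // RepT V m r p.1 p.2} : ℝ) ≤
        ((if r + s ≤ m then (5 / 6 : ℝ) ^ V.card else 1) * (Nat.card k : ℝ) ^ (10 * m + 4)) /
          (Nat.card k : ℝ) ^ r := by
      rw [le_div_iff₀ hqr]; exact h4
    refine h6.trans (le_of_eq ?_)
    rw [div_eq_mul_inv]
    ring
  have hsum : (Nat.card {p : k[X] × k[X] // Rep V m p.1 p.2} : ℝ) ≤
      ∑ r ∈ Finset.range (m + 1), (Nat.card {p : k[X] × k[X] // RepT V m r p.1 p.2} : ℝ) := by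
    exact_mod_cast bad_sum_le V m
  refine hsum.trans ((Finset.sum_le_sum hterm).trans ?_)
  rw [← Finset.sum_mul]
  exact mul_le_mul_of_nonneg_right (sum_tail hq5 hc hm) (by positivity)

end Pool.Agent.BSDP
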