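import Pool.Agent.Lib.BSDP.C.Cong

/-!
Module C.BadPi. The number of the pairs `(A, B)` whose discriminant is divisible by the square of a
given prime `π` of degree `d`.

Let `Δ = 4 A³ + 27 B²`, `π² ∣ Δ`.
* `dvd_of_sq_dvd`: if `π ∣ A` then `π ∣ 27 B²`, so `π ∣ B`.
* `sq_mod`: if `π ∤ A` and `π² ∣ Δ(A, B)`, `π² ∣ Δ(A, B')` then `π² ∣ 27 (B - B')(B + B')`; if `π` divided
  both `B - B'` and `B + B'` it would divide `2 B`, so `B`, so `4 A³`, so `A`; hence `π² ∣ B - B'` or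
  `π² ∣ B + B'`.
* The bound: split the set by `π ∣ A`. If `π ∣ A`: at most `q^(4m - d) * q^(6m - d)` pairs
  (`card_top_mod_le` with `M = π`, `R = 0`, twice; for `m`, `d` with `4 m < d` the subtraction is truncated).
  If `π ∤ A`: for each of the `q^(4m)` polynomials `A` the set of the `B` is empty or, with one
  element `B₀` of it, is contained in the union of the classes of `B₀` and `-B₀` modulo `π²`
  (`card_top_mod_le` with `M = π²`): at most `2 q^(6m - 2d)`.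
* `card_bad_small`: for `d ≤ 3 m`: `(4m - d) + (6m - d) = 10 m - 2 d`, `4 m + (6m - 2d) = 10 m - 2 d`.
* `card_bad_large`: for `3 m < d ≤ 6 m`: `6m - 2d = 0` (truncated), and
  `(4m - d) + (6m - d) ≤ 4 m`.
-/

set_option autoImplicit false

open Polynomial

namespace Pool.Agent.BSDP

variable {k : Type} [Field k]

private lemma badpi_C_ne {c : k} (hc : c ≠ 0) : IsUnit (C c : k[X]) :=
  (isUnit_iff_ne_zero.mpr hc).map C

theorem dvd_of_sq_dvd (h3 : (3 : k) ≠ 0) {π A B : k[X]} (hπ : Irreducible π) (hA : π ∣ A)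
    (h : π ^ 2 ∣ Disc A B) : π ∣ B := by
  have hp : Prime π := hπ.prime
  have h1 : π ∣ Disc A B := dvd_trans (dvd_pow_self π two_ne_zero) h
  have h2 : π ∣ 4 * A ^ 3 := Dvd.dvd.mul_left (dvd_pow hA three_ne_zero) 4
  have h4 : π ∣ 27 * B ^ 2 := by
    have : 27 * B ^ 2 = Disc A B - 4 * A ^ 3 := by unfold Disc; ring
    rw [this]; exact dvd_sub h1 h2
  have hu : IsUnit (27 : k[X]) := by
    have : (27 : k[X]) = C (3 ^ 3 : k) := by
      rw [map_pow, map_ofNat]; norm_num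
    rw [this]
    exact badpi_C_ne (pow_ne_zero 3 h3)
  have h5 : π ∣ B ^ 2 := (hu.dvd_mul_left).mp h4
  exact hp.dvd_of_dvd_pow h5

theorem sq_mod (h2 : (2 : k) ≠ 0) (h3 : (3 : k) ≠ 0) {π A B B' : k[X]} (hπ : Irreducible π)
    (hA : ¬ π ∣ A) (h : π ^ 2 ∣ Disc A B) (h' : π ^ 2 ∣ Disc A B') :
    π ^ 2 ∣ B - B' ∨ π ^ 2 ∣ B - (-B') := by
  have hp : Prime π := hπ.prime
  have hu : IsUnit (27 : k[X]) := by
    have : (27 : k[X]) = C (3 ^ 3 : k) := by
      rw [map_pow, map_ofNat]; norm_num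
    rw [this]
    exact badpi_C_ne (pow_ne_zero 3 h3)
  have hu2 : IsUnit (2 : k[X]) := by
    have : (2 : k[X]) = C (2 : k) := (map_ofNat C 2).symm
    rw [this]
    exact badpi_C_ne h2
  have h4 : π ^ 2 ∣ 27 * ((B - B') * (B - (-B'))) := by
    have : 27 * ((B - B') * (B - (-B'))) = Disc A B - Disc A B' := by unfold Disc; ring
    rw [this]; exact dvd_sub h h'
  have h5 : π ^ 2 ∣ (B - B') * (B - (-B')) := (hu.dvd_mul_left).mp h4
  by_cases ha : π ∣ B - B'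
  · by_cases hb : π ∣ B - (-B')
    · exfalso
      have hc : π ∣ 2 * B := by
        have : 2 * B = (B - B') + (B - (-B')) := by ring
        rw [this]; exact dvd_add ha hb
      have hd : π ∣ B := (hu2.dvd_mul_left).mp hc
      have he : π ∣ Disc A B := dvd_trans (dvd_pow_self π two_ne_zero) h
      have hf : π ∣ 27 * B ^ 2 := Dvd.dvd.mul_left (dvd_pow hd two_ne_zero) 27
      have hg : π ∣ (2 * 2) * A ^ 3 := by
        have : (2 * 2) * A ^ 3 = Disc A B - 27 * B ^ 2 := by unfold Disc; ring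
        rw [this]; exact dvd_sub he hf
      have hh : π ∣ A ^ 3 := ((hu2.mul hu2).dvd_mul_left).mp hg
      exact hA (hp.dvd_of_dvd_pow hh)
    · left
      exact hp.pow_dvd_of_dvd_mul_right 2 hb h5
  · right
    exact hp.pow_dvd_of_dvd_mul_left 2 ha h5

private lemma badpi_finite_top [Finite k] (n : ℕ) (a : k) (P : k[X] → Prop) :
    {f : k[X] | Top n a f ∧ P f}.Finite :=
  (finite_natDegree_le' n).subset fun _ hf => hf.1.1

private lemma badpi_le_two [Finite k] (h2 : (2 : k) ≠ 0) (h3 : (3 : k) ≠ 0) (b : k) (m : ℕ)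
    {π A : k[X]} (hm : π.Monic) (hπ : Irreducible π) (hA : ¬ π ∣ A) :
    Nat.card {B : k[X] // Top (6 * m) b B ∧ π ^ 2 ∣ Disc A B} ≤
      2 * Nat.card k ^ (6 * m - 2 * π.natDegree) := by
  have hm2 : (π ^ 2).Monic := hm.pow 2
  have hd2 : (π ^ 2).natDegree = 2 * π.natDegree := hm.natDegree_pow 2
  by_cases hne : ∃ B0 : k[X], Top (6 * m) b B0 ∧ π ^ 2 ∣ Disc A B0
  · obtain ⟨B0, hB0, hB0'⟩ := hne
    have hsub : {B : k[X] | Top (6 * m) b B ∧ π ^ 2 ∣ Disc A B} ⊆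
        {B : k[X] | Top (6 * m) b B ∧ π ^ 2 ∣ B - B0} ∪
        {B : k[X] | Top (6 * m) b B ∧ π ^ 2 ∣ B - (-B0)} := by
      intro B hB
      rcases sq_mod h2 h3 hπ hA hB.2 hB0' with h | h
      · exact Or.inl ⟨hB.1, h⟩
      · exact Or.inr ⟨hB.1, h⟩
    have hfin1 := badpi_finite_top (6 * m) b (fun B => π ^ 2 ∣ B - B0)
    have hfin2 := badpi_finite_top (6 * m) b (fun B => π ^ 2 ∣ B - (-B0))
    have e1 : Set.ncard {B : k[X] | Top (6 * m) b B ∧ π ^ 2 ∣ B - B0} ≤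
        Nat.card k ^ (6 * m - 2 * π.natDegree) := by
      have := card_top_mod_le hm2 (6 * m) b B0
      rw [hd2] at this
      exact this
    have e2 : Set.ncard {B : k[X] | Top (6 * m) b B ∧ π ^ 2 ∣ B - (-B0)} ≤
        Nat.card k ^ (6 * m - 2 * π.natDegree) := by
      have := card_top_mod_le hm2 (6 * m) b (-B0)
      rw [hd2] at this
      exact this
    calc Nat.card {B : k[X] // Top (6 * m) b B ∧ π ^ 2 ∣ Disc A B}
        = Set.ncard {B : k[X] | Top (6 * m) b B ∧ π ^ 2 ∣ Disc A B} := rfl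
      _ ≤ Set.ncard ({B : k[X] | Top (6 * m) b B ∧ π ^ 2 ∣ B - B0} ∪
        {B : k[X] | Top (6 * m) b B ∧ π ^ 2 ∣ B - (-B0)}) :=
          Set.ncard_le_ncard hsub (hfin1.union hfin2)
      _ ≤ _ + _ := Set.ncard_union_le _ _
      _ ≤ Nat.card k ^ (6 * m - 2 * π.natDegree) + Nat.card k ^ (6 * m - 2 * π.natDegree) :=
          add_le_add e1 e2
      _ = 2 * Nat.card k ^ (6 * m - 2 * π.natDegree) := by ring
  · have : IsEmpty {B : k[X] // Top (6 * m) b B ∧ π ^ 2 ∣ Disc A B} :=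
      ⟨fun B => hne ⟨B.1, B.2⟩⟩
    rw [Nat.card_of_isEmpty]
    exact Nat.zero_le _

theorem card_bad_le [Finite k] (h2 : (2 : k) ≠ 0) (h3 : (3 : k) ≠ 0) (a b : k) (m : ℕ)
    {π : k[X]} (hm : π.Monic) (hπ : Irreducible π) :
    Nat.card {p : k[X] × k[X] // Top (4 * m) a p.1 ∧ Top (6 * m) b p.2 ∧ π ^ 2 ∣ Disc p.1 p.2} ≤
      Nat.card k ^ ((4 * m - π.natDegree) + (6 * m - π.natDegree)) +
        2 * Nat.card k ^ (4 * m + (6 * m - 2 * π.natDegree)) := by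
  classical
  set q := Nat.card k with hq
  set d := π.natDegree with hd
  -- the first part
  have hfA := badpi_finite_top (4 * m) a (fun A => π ∣ A - 0)
  have hfB := badpi_finite_top (6 * m) b (fun A => π ∣ A - 0)
  have hfA' : {A : k[X] | Top (4 * m) a A}.Finite :=
    (finite_natDegree_le' (4 * m)).subset fun _ hf => hf.1
  have hfB' : {A : k[X] | Top (6 * m) b A}.Finite :=
    (finite_natDegree_le' (6 * m)).subset fun _ hf => hf.1
  set S1 : Set (k[X] × k[X]) := {A : k[X] | Top (4 * m) a A ∧ π ∣ A - 0} ×ˢ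
    {B : k[X] | Top (6 * m) b B ∧ π ∣ B - 0} with hS1
  set S2 : Set (k[X] × k[X]) := {p | Top (4 * m) a p.1 ∧ Top (6 * m) b p.2 ∧ ¬ π ∣ p.1 ∧
    π ^ 2 ∣ Disc p.1 p.2} with hS2
  have hS1f : S1.Finite := hfA.prod hfB
  have hS2f : S2.Finite := (hfA'.prod hfB').subset fun p hp => ⟨hp.1, hp.2.1⟩
  have hsub : {p : k[X] × k[X] | Top (4 * m) a p.1 ∧ Top (6 * m) b p.2 ∧
      π ^ 2 ∣ Disc p.1 p.2} ⊆ S1 ∪ S2 := by
    rintro ⟨A, B⟩ ⟨hA, hB, hAB⟩
    by_cases hπA : π ∣ A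
    · left
      have hπB := dvd_of_sq_dvd h3 hπ hπA hAB
      exact ⟨⟨hA, by simpa using hπA⟩, ⟨hB, by simpa using hπB⟩⟩
    · right
      exact ⟨hA, hB, hπA, hAB⟩
  have c1 : S1.ncard ≤ q ^ ((4 * m - d) + (6 * m - d)) := by
    rw [hS1, Set.ncard_prod, pow_add]
    exact Nat.mul_le_mul (card_top_mod_le hm (4 * m) a 0) (card_top_mod_le hm (6 * m) b 0)
  have c2 : S2.ncard ≤ 2 * q ^ (4 * m + (6 * m - 2 * d)) := by
    have hcov : S2 ⊆ ⋃ A ∈ hfA'.toFinset, (fun B => (A, B)) ''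
        {B : k[X] | (Top (6 * m) b B ∧ π ^ 2 ∣ Disc A B) ∧ ¬ π ∣ A} := by
      rintro ⟨A, B⟩ ⟨hA, hB, hπA, hAB⟩
      simp only [Set.Finite.mem_toFinset, Set.mem_ofPred_eq, Set.mem_iUnion, Set.mem_image,
        Prod.mk.injEq, exists_prop]
      exact ⟨A, hA, B, ⟨⟨hB, hAB⟩, hπA⟩, rfl, rfl⟩
    have hb : ∀ A ∈ hfA'.toFinset, ((fun B => (A, B)) ''
        {B : k[X] | (Top (6 * m) b B ∧ π ^ 2 ∣ Disc A B) ∧ ¬ π ∣ A}).ncard ≤
        2 * q ^ (6 * m - 2 * d) := by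
      intro A _
      by_cases hπA : π ∣ A
      · have : {B : k[X] | (Top (6 * m) b B ∧ π ^ 2 ∣ Disc A B) ∧ ¬ π ∣ A} = ∅ := by
          ext B; simp [hπA]
        rw [this]; simp
      · have hfin := badpi_finite_top (6 * m) b (fun B => π ^ 2 ∣ Disc A B)
        have he : {B : k[X] | (Top (6 * m) b B ∧ π ^ 2 ∣ Disc A B) ∧ ¬ π ∣ A} =
            {B : k[X] | Top (6 * m) b B ∧ π ^ 2 ∣ Disc A B} := by
          ext B; simp [hπA]
        rw [he]
        refine le_trans (Set.ncard_image_le hfin) ?_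
        exact badpi_le_two h2 h3 b m hm hπ hπA
    have hcard : hfA'.toFinset.card = q ^ (4 * m) := by
      rw [← Set.ncard_eq_toFinset_card _ hfA']
      exact card_top (4 * m) a
    have hfin2 : (⋃ A ∈ hfA'.toFinset, (fun B => (A, B)) ''
        {B : k[X] | (Top (6 * m) b B ∧ π ^ 2 ∣ Disc A B) ∧ ¬ π ∣ A}).Finite := by
      refine Set.Finite.biUnion (Finset.finite_toSet _) ?_
      intro A _
      refine Set.Finite.image _ (hfB'.subset ?_)
      intro B hB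
      exact hB.1.1
    calc S2.ncard ≤ (⋃ A ∈ hfA'.toFinset, (fun B => (A, B)) ''
        {B : k[X] | (Top (6 * m) b B ∧ π ^ 2 ∣ Disc A B) ∧ ¬ π ∣ A}).ncard :=
          Set.ncard_le_ncard hcov hfin2
      _ ≤ ∑ A ∈ hfA'.toFinset, ((fun B => (A, B)) ''
        {B : k[X] | (Top (6 * m) b B ∧ π ^ 2 ∣ Disc A B) ∧ ¬ π ∣ A}).ncard := by
          exact Finset.set_ncard_biUnion_le _ _
      _ ≤ ∑ A ∈ hfA'.toFinset, 2 * q ^ (6 * m - 2 * d) := Finset.sum_le_sum hb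
      _ = 2 * q ^ (4 * m + (6 * m - 2 * d)) := by
          rw [Finset.sum_const, hcard, smul_eq_mul, pow_add]; ring
  calc Nat.card {p : k[X] × k[X] // Top (4 * m) a p.1 ∧ Top (6 * m) b p.2 ∧
        π ^ 2 ∣ Disc p.1 p.2}
      = Set.ncard {p : k[X] × k[X] | Top (4 * m) a p.1 ∧ Top (6 * m) b p.2 ∧
      π ^ 2 ∣ Disc p.1 p.2} := rfl
    _ ≤ (S1 ∪ S2).ncard := Set.ncard_le_ncard hsub (hS1f.union hS2f)
    _ ≤ S1.ncard + S2.ncard := Set.ncard_union_le _ _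
    _ ≤ _ := add_le_add c1 c2

theorem card_bad_small [Finite k] (h2 : (2 : k) ≠ 0) (h3 : (3 : k) ≠ 0) (a b : k) (m : ℕ)
    {π : k[X]} (hm : π.Monic) (hπ : Irreducible π) (hd : π.natDegree ≤ 3 * m) :
    Nat.card {p : k[X] × k[X] // Top (4 * m) a p.1 ∧ Top (6 * m) b p.2 ∧ π ^ 2 ∣ Disc p.1 p.2} ≤
      3 * Nat.card k ^ (10 * m - 2 * π.natDegree) := by
  refine le_trans (card_bad_le h2 h3 a b m hm hπ) ?_
  have e1 : (4 * m - π.natDegree) + (6 * m - π.natDegree) = 10 * m - 2 * π.natDegree := by omega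
  have e2 : 4 * m + (6 * m - 2 * π.natDegree) = 10 * m - 2 * π.natDegree := by omega
  rw [e1, e2]
  omega

theorem card_bad_large [Finite k] (h2 : (2 : k) ≠ 0) (h3 : (3 : k) ≠ 0) (a b : k) (m : ℕ)
    {π : k[X]} (hm : π.Monic) (hπ : Irreducible π) (hd : 3 * m < π.natDegree)
    (hd' : π.natDegree ≤ 6 * m) :
    Nat.card {p : k[X] × k[X] // Top (4 * m) a p.1 ∧ Top (6 * m) b p.2 ∧ π ^ 2 ∣ Disc p.1 p.2} ≤
      3 * Nat.card k ^ (4 * m) := by
  refine le_trans (card_bad_le h2 h3 a b m hm hπ) ?_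
  have e2 : 4 * m + (6 * m - 2 * π.natDegree) = 4 * m := by omega
  rw [e2]
  have hq : 0 < Nat.card k := Nat.card_pos
  have h1 : Nat.card k ^ ((4 * m - π.natDegree) + (6 * m - π.natDegree)) ≤
      Nat.card k ^ (4 * m) := Nat.pow_le_pow_right hq (by omega)
  omega

end Pool.Agent.BSDP
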