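import Pool.Agent.Lib.BSDP.Def

/-!
Block C (counting) of the project a positive proportion of all elliptic curves over `k(t)` has
trivial 2-Selmer group: definitions.
-/

set_option autoImplicit false

open Polynomial

namespace Pool.Agent.BSDP

variable {k : Type} [Field k]

/-- The quintuple `t` is detected at no prime of `V`. -/
def Undet (V : Finset k[X]) (t : Quin k[X]) : Prop :=
  ∀ π ∈ V, ∀ h : Irreducible π, haveI : Fact (Irreducible π) := ⟨h⟩;
    ¬ (t.map (AdjoinRoot.mk π)).Det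

/-- The quintuples with degrees at most `n 0, ..., n 4`. -/
def Box (n : Fin 5 → ℕ) (t : Quin k[X]) : Prop :=
  t.a.natDegree ≤ n 0 ∧ t.b.natDegree ≤ n 1 ∧ t.c.natDegree ≤ n 2 ∧ t.d.natDegree ≤ n 3 ∧
    t.e.natDegree ≤ n 4

/-- The degree bounds for the quintuples of type `r`. -/
def Bd (m r : ℕ) (t : Quin k[X]) : Prop :=
  t.a.natDegree ≤ 2 * m - 2 * r ∧ t.b.natDegree ≤ 2 * m - r ∧ t.c.natDegree ≤ 2 * m ∧
    t.d.natDegree ≤ 2 * m + r ∧ t.e.natDegree ≤ 2 * m + 2 * r

/-- `(A, B)` is represented by a quintuple of some type `r ≤ m` which is detected at no prime of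
`V`. -/
def Rep (V : Finset k[X]) (m : ℕ) (A B : k[X]) : Prop :=
  ∃ r ≤ m, ∃ t : Quin k[X], t.a ≠ 0 ∧ t.invA = A ∧ t.invB = B ∧ Bd m r t ∧
    ∀ π ∈ V, ∀ h : Irreducible π, haveI : Fact (Irreducible π) := ⟨h⟩;
      ¬ (t.map (AdjoinRoot.mk π)).Det

/-- `A` has degree at most `n`, with `a` as the coefficient of `t ^ n`. -/
def Top (n : ℕ) (a : k) (A : k[X]) : Prop := A.natDegree ≤ n ∧ A.coeff n = a

/-- The discriminant (up to sign). -/
noncomputable def Disc (A B : k[X]) : k[X] := 4 * A ^ 3 + 27 * B ^ 2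

end Pool.Agent.BSDP
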