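import Pool.Agent.Lib.BSDP.C.Par

/-!
Module C.DetCard. At least one sixth of the quintuples over a finite field of characteristic at least
`5` is detected.

Let `Q` be the number of elements of `F` (`Q ≥ 5`, odd), `δ` a nonsquare.
* `card_sq_sub`: the number of `x` with `x² - δ` a square is `(Q - 1) / 2`: the pairs `(x, w)` with
  `x² - w² = δ` correspond to `u = x + w ≠ 0` (`x - w = δ / u`), there are `Q - 1` of them, `w ≠ 0` (as `δ` is
  not a square), so each `x` comes from two `w`. [Only the upper bound `2 #{x} ≤ Q - 1` is needed.]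
* `card_norm_nonsquare`: `Q² ≤ 2 #{(x, y) : x² - δ y² not a square} + 1`: for `y ≠ 0` the form is
  `y² ((x/y)² - δ)`; so for each `y ≠ 0` the number of `x` with a nonsquare value is at least
  `Q - (Q - 1)/2 = (Q + 1)/2`; total at least `(Q - 1)(Q + 1)/2`.
* `card_nn`: for fixed `p₁, p₂` the map `(r₁, r₂) ↦ (p₁² + δ p₂² - 4 r₁, 2 p₁ p₂ - 4 r₂)` is a
  bijection of `F × F`.
* `det_card`: the parameters `(κ, p₁, r₁, p₂, r₂)` with `κ ≠ 0` and `nn` a nonsquare: at least
  `(Q - 1) Q² (Q² - 1)/2`; by `par_inj` each quintuple comes from at most two of them, by `det_par` it is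
  detected. So `4 #Det ≥ (Q - 1) Q² (Q² - 1)` and `6 (Q - 1) (Q² - 1) ≥ 4 Q³` for `Q ≥ 5`
  (`2 Q³ - 6 Q² - 6 Q + 6 ≥ 0`: `Q = 5`: `76`).
-/

set_option autoImplicit false

open Polynomial

namespace Pool.Agent.BSDP

variable {F : Type} [Field F] [Finite F]

theorem five_le_card (h2 : (2 : F) ≠ 0) (h3 : (3 : F) ≠ 0) : 5 ≤ Nat.card F := by
  classical
  have : Fintype F := Fintype.ofFinite F
  have h4 : (4 : F) ≠ 0 := by
    have : (4 : F) = 2 * 2 := by norm_num
    rw [this]
    exact mul_ne_zero h2 h2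
  have h : ({0, 1, 2, 3, 4} : Finset F).card = 5 := by
    rw [Finset.card_insert_of_notMem, Finset.card_insert_of_notMem, Finset.card_insert_of_notMem,
      Finset.card_insert_of_notMem, Finset.card_singleton]
    · simp only [Finset.mem_singleton]
      intro h
      exact one_ne_zero (α := F) (by linear_combination -h)
    · simp only [Finset.mem_insert, Finset.mem_singleton, not_or]
      exact ⟨fun h => one_ne_zero (α := F) (by linear_combination -h),
        fun h => h2 (by linear_combination -h)⟩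
    · simp only [Finset.mem_insert, Finset.mem_singleton, not_or]
      exact ⟨fun h => one_ne_zero (α := F) (by linear_combination -h),
        fun h => h2 (by linear_combination -h), fun h => h3 (by linear_combination -h)⟩
    · simp only [Finset.mem_insert, Finset.mem_singleton, not_or]
      exact ⟨zero_ne_one, fun h => h2 h.symm, fun h => h3 h.symm, fun h => h4 h.symm⟩
  rw [Nat.card_eq_fintype_card, ← h]
  exact Finset.card_le_univ _

omit [Finite F] in
open Classical in
private theorem card_sq_sub [Fintype F] (h2 : (2 : F) ≠ 0) {D : F} (hD : ¬ IsSquare D) :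
    2 * (Finset.univ.filter fun x : F => IsSquare (x ^ 2 - D)).card ≤ Fintype.card F - 1 := by
  have hD0 : D ≠ 0 := fun h => hD (h ▸ IsSquare.zero)
  have h := Finset.mul_card_image_le_card_of_maps_to (s := Finset.univ.erase (0 : F))
    (t := Finset.univ.filter fun x : F => IsSquare (x ^ 2 - D)) (f := fun u => (u + D / u) / 2)
    (fun u hu => by
      have hu0 : u ≠ 0 := Finset.ne_of_mem_erase hu
      rw [Finset.mem_filter]
      refine ⟨Finset.mem_univ _, (u - D / u) / 2, ?_⟩
      field_simp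
      ring) 2
    (fun x hx => by
      rw [Finset.mem_filter] at hx
      obtain ⟨-, w, hw⟩ := hx
      have hw0 : w ≠ 0 := by
        rintro rfl
        exact hD ⟨x, by linear_combination -hw⟩
      have hp : (x + w) * (x - w) = D := by linear_combination hw
      have h1 : x + w ≠ 0 := fun h => hD0 (by rw [← hp, h, zero_mul])
      have h3 : x - w ≠ 0 := fun h => hD0 (by rw [← hp, h, mul_zero])
      have h4 : ({x + w, x - w} : Finset F).card = 2 := by
        rw [Finset.card_pair]
        intro h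
        have : 2 * w = 0 := by linear_combination h
        exact (mul_ne_zero h2 hw0) this
      rw [← h4]
      refine Finset.card_le_card fun y hy => ?_
      rw [Finset.mem_insert, Finset.mem_singleton] at hy
      rw [Finset.mem_filter]
      rcases hy with rfl | rfl
      · refine ⟨Finset.mem_erase.2 ⟨h1, Finset.mem_univ _⟩, ?_⟩
        have : D / (x + w) = x - w := by
          rw [div_eq_iff h1, ← hp]
          ring
        simp only [this]
        field_simp
        ring
      · refine ⟨Finset.mem_erase.2 ⟨h3, Finset.mem_univ _⟩, ?_⟩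
        have : D / (x - w) = x + w := by
          rw [div_eq_iff h3, ← hp]
        simp only [this]
        field_simp
        ring)
  rwa [Finset.card_erase_of_mem (Finset.mem_univ _), Finset.card_univ] at h

theorem card_norm_nonsquare (h2 : (2 : F) ≠ 0) {δ : F} (hδ : ¬ IsSquare δ) :
    Nat.card F ^ 2 ≤ 2 * Nat.card {p : F × F // ¬ IsSquare (p.1 ^ 2 - δ * p.2 ^ 2)} + 1 := by
  classical
  have : Fintype F := Fintype.ofFinite F
  rw [Nat.card_eq_fintype_card, Nat.card_eq_fintype_card, Fintype.card_subtype]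
  have e1 : (Finset.univ.filter fun p : F × F => ¬ IsSquare (p.1 ^ 2 - δ * p.2 ^ 2)).card =
      ∑ y : F, (Finset.univ.filter fun x : F => ¬ IsSquare (x ^ 2 - δ * y ^ 2)).card := by
    simp only [Finset.card_filter]
    rw [Fintype.sum_prod_type_right]
  have hQ : 1 ≤ Fintype.card F := Fintype.card_pos
  have e2 : ∀ y ∈ Finset.univ.erase (0 : F), Fintype.card F + 1 ≤
      2 * (Finset.univ.filter fun x : F => ¬ IsSquare (x ^ 2 - δ * y ^ 2)).card := by
    intro y hy
    have hy0 : y ≠ 0 := Finset.ne_of_mem_erase hy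
    have hD : ¬ IsSquare (δ * y ^ 2) := by
      rintro ⟨s, hs⟩
      refine hδ ⟨s / y, ?_⟩
      field_simp
      linear_combination hs
    have h := card_sq_sub h2 hD
    have h' := Finset.card_filter_add_card_filter_not (s := (Finset.univ : Finset F))
      (fun x : F => IsSquare (x ^ 2 - δ * y ^ 2))
    rw [Finset.card_univ] at h'
    omega
  have e3 := Finset.sum_le_sum e2
  rw [Finset.sum_const, Finset.card_erase_of_mem (Finset.mem_univ _), Finset.card_univ, smul_eq_mul,
    ← Finset.mul_sum] at e3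
  have e4 : ∑ y ∈ Finset.univ.erase (0 : F),
      (Finset.univ.filter fun x : F => ¬ IsSquare (x ^ 2 - δ * y ^ 2)).card ≤
      ∑ y : F, (Finset.univ.filter fun x : F => ¬ IsSquare (x ^ 2 - δ * y ^ 2)).card :=
    Finset.sum_le_sum_of_subset (Finset.erase_subset _ _)
  rw [e1]
  obtain ⟨q, hq⟩ : ∃ q, Fintype.card F = q + 1 := ⟨Fintype.card F - 1, by omega⟩
  rw [hq] at e3 ⊢
  have e5 : q + 1 - 1 = q := by omega
  rw [e5] at e3
  nlinarith [e3, e4]

theorem card_nn (h2 : (2 : F) ≠ 0) {δ : F} (hδ : ¬ IsSquare δ) (p₁ p₂ : F) :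
    Nat.card F ^ 2 ≤ 2 * Nat.card {r : F × F // ¬ IsSquare (nn δ p₁ r.1 p₂ r.2)} + 1 := by
  have h4 : (4 : F) ≠ 0 := by
    have : (4 : F) = 2 * 2 := by norm_num
    rw [this]
    exact mul_ne_zero h2 h2
  have e : {r : F × F // ¬ IsSquare (nn δ p₁ r.1 p₂ r.2)} ≃
      {p : F × F // ¬ IsSquare (p.1 ^ 2 - δ * p.2 ^ 2)} :=
    Equiv.subtypeEquiv
      { toFun := fun r => (p₁ ^ 2 + δ * p₂ ^ 2 - 4 * r.1, 2 * p₁ * p₂ - 4 * r.2)
        invFun := fun p => ((p₁ ^ 2 + δ * p₂ ^ 2 - p.1) / 4, (2 * p₁ * p₂ - p.2) / 4)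
        left_inv := fun r => by
          apply Prod.ext
          · simp only
            field_simp
            ring
          · simp only
            field_simp
            ring
        right_inv := fun p => by
          apply Prod.ext
          · simp only
            field_simp
            ring
          · simp only
            field_simp
            ring }
      (fun r => Iff.rfl)
  rw [Nat.card_congr e]
  exact card_norm_nonsquare h2 hδ

theorem det_card (h2 : (2 : F) ≠ 0) (h3 : (3 : F) ≠ 0) :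
    Nat.card F ^ 5 ≤ 6 * Nat.card {t : Quin F // t.Det} := by
  classical
  have : Fintype F := Fintype.ofFinite F
  have h5 := five_le_card h2 h3
  have hchar : ringChar F ≠ 2 := by
    intro h
    apply h2
    have h' : ((2 : ℕ) : F) = 0 := by
      rw [ringChar.spec, h]
    exact_mod_cast h'
  obtain ⟨δ, hδ⟩ := FiniteField.exists_nonsquare hchar
  have : Finite (Quin F) := Finite.of_injective
    (fun t : Quin F => (t.a, t.b, t.c, t.d, t.e)) (fun s t h => by
      simp only [Prod.mk.injEq] at h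
      exact Quin.ext h.1 h.2.1 h.2.2.1 h.2.2.2.1 h.2.2.2.2)
  -- the parameters
  let A := {κ : F // κ ≠ 0} × (Σ p : F × F, {r : F × F // ¬ IsSquare (nn δ p.1 r.1 p.2 r.2)})
  have hA : Nat.card A = (Nat.card F - 1) *
      ∑ p : F × F, Nat.card {r : F × F // ¬ IsSquare (nn δ p.1 r.1 p.2 r.2)} := by
    simp only [A, Nat.card_eq_fintype_card, Fintype.card_prod, Fintype.card_sigma]
    congr 1
    rw [Fintype.card_subtype_compl, Fintype.card_subtype_eq]
  let f : A → {t : Quin F // t.Det} := fun x =>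
    ⟨par δ x.1.1 x.2.1.1 x.2.2.1.1 x.2.1.2 x.2.2.1.2, det_par h2 h3 hδ x.1.2 x.2.2.2⟩
  have : Fintype {t : Quin F // t.Det} := Fintype.ofFinite _
  have hf : Fintype.card A ≤ 2 * Fintype.card {t : Quin F // t.Det} := by
    have h := Finset.card_le_mul_card_image (f := f) (Finset.univ : Finset A) 2 (fun t ht => by
      rw [Finset.mem_image] at ht
      obtain ⟨x, -, rfl⟩ := ht
      -- the other element of the fibre
      obtain ⟨⟨κ, hκ⟩, ⟨⟨p₁, p₂⟩, ⟨⟨r₁, r₂⟩, hr⟩⟩⟩ := x
      have hr' : ¬ IsSquare (nn δ p₁ r₁ (-p₂) (-r₂)) := by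
        have : nn δ p₁ r₁ (-p₂) (-r₂) = nn δ p₁ r₁ p₂ r₂ := by
          unfold nn
          ring
        rw [this]
        exact hr
      let x₁ : A := ⟨⟨κ, hκ⟩, ⟨(p₁, p₂), ⟨(r₁, r₂), hr⟩⟩⟩
      let x₂ : A := ⟨⟨κ, hκ⟩, ⟨(p₁, -p₂), ⟨(r₁, -r₂), hr'⟩⟩⟩
      refine le_trans (Finset.card_le_card (t := {x₁, x₂}) fun y hy => ?_) Finset.card_le_two
      rw [Finset.mem_filter] at hy
      obtain ⟨⟨κ', hκ'⟩, ⟨⟨p₁', p₂'⟩, ⟨⟨r₁', r₂'⟩, hr''⟩⟩⟩ := y
      have h : κ' = κ ∧ p₁' = p₁ ∧ r₁' = r₁ ∧ ((p₂' = p₂ ∧ r₂' = r₂) ∨ (p₂' = -p₂ ∧ r₂' = -r₂)) :=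
        par_inj h2 h3 hδ hκ' hr'' hκ hr (Subtype.ext_iff.1 hy.2)
      rw [Finset.mem_insert, Finset.mem_singleton]
      obtain ⟨rfl, rfl, rfl, ⟨rfl, rfl⟩ | ⟨rfl, rfl⟩⟩ := h
      · exact Or.inl rfl
      · exact Or.inr rfl)
    rw [Finset.card_univ] at h
    exact h.trans (Nat.mul_le_mul_left 2 (Finset.card_le_univ _))
  have hs : Nat.card F ^ 2 * (Nat.card F ^ 2 - 1) ≤
      2 * ∑ p : F × F, Nat.card {r : F × F // ¬ IsSquare (nn δ p.1 r.1 p.2 r.2)} := by
    rw [Finset.mul_sum]
    have h : ∀ p ∈ (Finset.univ : Finset (F × F)), Nat.card F ^ 2 - 1 ≤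
        2 * Nat.card {r : F × F // ¬ IsSquare (nn δ p.1 r.1 p.2 r.2)} := by
      intro p _
      have := card_nn h2 hδ p.1 p.2
      omega
    have h' := Finset.sum_le_sum h
    rw [Finset.sum_const, Finset.card_univ, Fintype.card_prod, smul_eq_mul] at h'
    rw [Nat.card_eq_fintype_card (α := F)] at h' ⊢
    calc _ = Fintype.card F * Fintype.card F * (Fintype.card F ^ 2 - 1) := by ring
      _ ≤ _ := h'
  rw [Nat.card_eq_fintype_card (α := A)] at hA
  rw [Nat.card_eq_fintype_card (α := {t : Quin F // t.Det})]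
  rw [hA] at hf
  generalize (∑ p : F × F, Nat.card {r : F × F // ¬ IsSquare (nn δ p.1 r.1 p.2 r.2)}) = M at *
  generalize Nat.card F = Q at *
  generalize Fintype.card {t : Quin F // t.Det} = T at *
  obtain ⟨q, rfl⟩ : ∃ q, Q = q + 5 := ⟨Q - 5, by omega⟩
  have e1 : q + 5 - 1 = q + 4 := by omega
  have e2 : (q + 5) ^ 2 - 1 = (q + 4) * (q + 6) := by
    have : (q + 5) ^ 2 = (q + 4) * (q + 6) + 1 := by ring
    omega
  rw [e1] at hf
  rw [e2] at hs
  have h6 : (q + 4) * ((q + 5) ^ 2 * ((q + 4) * (q + 6))) ≤ 4 * T := by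
    calc (q + 4) * ((q + 5) ^ 2 * ((q + 4) * (q + 6))) ≤ (q + 4) * (2 * M) := Nat.mul_le_mul_left _ hs
      _ = 2 * ((q + 4) * M) := by ring
      _ ≤ 2 * (2 * T) := Nat.mul_le_mul_left _ hf
      _ = 4 * T := by ring
  have h7 : 2 * (q + 5) ^ 3 ≤ 3 * ((q + 4) * ((q + 4) * (q + 6))) := by
    nlinarith [Nat.zero_le q, Nat.zero_le (q ^ 2), Nat.zero_le (q ^ 3)]
  have h8 : 2 * (q + 5) ^ 5 ≤ 3 * ((q + 4) * ((q + 5) ^ 2 * ((q + 4) * (q + 6)))) := by
    calc 2 * (q + 5) ^ 5 = (q + 5) ^ 2 * (2 * (q + 5) ^ 3) := by ring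
      _ ≤ (q + 5) ^ 2 * (3 * ((q + 4) * ((q + 4) * (q + 6)))) := Nat.mul_le_mul_left _ h7
      _ = _ := by ring
  omega

end Pool.Agent.BSDP
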