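import Pool.Agent.Lib.BSDP.C.Defs

/-!
Module C.Irr. An upper bound for the number of irreducible polynomials.

`irr_card`: the monic irreducible `π` of degree `d` divide `X ^ (q ^ d) - X`
(`Irreducible.natDegree_dvd_iff_dvd_X_pow_card_pow_sub_X` in
`Mathlib.FieldTheory.Finite.Extension`), they are pairwise coprime, so for every finite set `s` of them
`∏ π` divides it (`Finset.prod_dvd_of_coprime`), and the degrees give `d * #s ≤ q ^ d`
(`FiniteField.X_pow_card_pow_sub_X_natDegree_eq`, `FiniteField.X_pow_card_pow_sub_X_ne_zero`).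
-/

set_option autoImplicit false

open Polynomial

namespace Pool.Agent.BSDP

variable {k : Type} [Field k]

theorem finite_irr [Finite k] (d : ℕ) :
    {π : k[X] | π.Monic ∧ Irreducible π ∧ π.natDegree = d}.Finite := by
  have h1 : Finite (Polynomial.degreeLT k (d + 1)) :=
    Finite.of_equiv _ (Polynomial.degreeLTEquiv k (d + 1)).toEquiv.symm
  refine Set.Finite.subset (Set.toFinite (Polynomial.degreeLT k (d + 1) : Set k[X])) ?_
  rintro f ⟨_, _, hf⟩
  show f ∈ Polynomial.degreeLT k (d + 1)
  rw [Polynomial.mem_degreeLT]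
  refine lt_of_le_of_lt Polynomial.degree_le_natDegree ?_
  rw [hf]
  exact_mod_cast Nat.lt_succ_self d

theorem irr_card [Finite k] (d : ℕ) (hd : 0 < d) :
    d * Nat.card {π : k[X] // π.Monic ∧ Irreducible π ∧ π.natDegree = d} ≤ Nat.card k ^ d := by
  classical
  have hfin := finite_irr (k := k) d
  set S : Finset k[X] := hfin.toFinset with hS
  have hmem : ∀ π, π ∈ S ↔ π.Monic ∧ Irreducible π ∧ π.natDegree = d := fun π => by
    rw [hS, Set.Finite.mem_toFinset]
    rfl
  have hcard : Nat.card {π : k[X] // π.Monic ∧ Irreducible π ∧ π.natDegree = d} = S.card := by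
    have h2 := Set.ncard_eq_toFinset_card {π : k[X] | π.Monic ∧ Irreducible π ∧ π.natDegree = d} hfin
    rw [hS, ← h2]
    rfl
  have hq : 1 < Nat.card k := Finite.one_lt_card
  have hne := FiniteField.X_pow_card_pow_sub_X_ne_zero k hd.ne' hq
  have hdeg := FiniteField.X_pow_card_pow_sub_X_natDegree_eq k hd.ne' hq
  have hdvd : ∏ π ∈ S, π ∣ (X ^ Nat.card k ^ d - X : k[X]) := by
    refine Finset.prod_dvd_of_coprime ?_ ?_
    · intro π hπ ρ hρ hne'
      have h1 := (hmem π).1 hπ
      have h2 := (hmem ρ).1 hρ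
      show IsCoprime π ρ
      refine (h1.2.1.coprime_iff_not_dvd).2 fun hdv => hne' ?_
      exact Polynomial.eq_of_monic_of_associated h1.1 h2.1 (h1.2.1.associated_of_dvd h2.2.1 hdv)
    · intro π hπ
      have h1 := (hmem π).1 hπ
      refine (h1.2.1.natDegree_dvd_iff_dvd_X_pow_card_pow_sub_X).1 ?_
      rw [h1.2.2]
  have h1 := Polynomial.natDegree_le_of_dvd hdvd hne
  rw [hdeg, Polynomial.natDegree_prod_of_monic _ _ fun π hπ => ((hmem π).1 hπ).1,
    Finset.sum_congr rfl fun π hπ => ((hmem π).1 hπ).2.2, Finset.sum_const, smul_eq_mul] at h1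
  rw [hcard, mul_comm]
  exact h1

end Pool.Agent.BSDP
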