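import Pool.Agent.Lib.BSDP.C.BadPi
import Pool.Agent.Lib.BSDP.C.Irr
import Pool.Agent.Lib.BSDP.C.Num
import Pool.Agent.Lib.BSDP.C.DetCard

/-!
Module C.FamCard. The family of the pairs with squarefree discriminant has positive density.

* `disc_lead`: if `4 a³ + 27 b² = 0` (`2, 3 ≠ 0`) then `X³ + a X + b` has a root in `k`: `0` if `a = 0`
  (then `b = 0`), and `3 b / a` if `a ≠ 0`. So `4 a³ + 27 b² ≠ 0`; it is the coefficient of `X ^ (12 m)`
  in `Disc A B` for `Top (4 * m) a A`, `Top (6 * m) b B` (`Polynomial.coeff_pow_of_natDegree_le`,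
  `coeff_mul_of_natDegree_le`).
* `exists_prime_sq`: if `Disc A B` (nonzero, of degree at most `12 m`) is not squarefree there is a monic
  irreducible `π` with `π ^ 2 ∣ Disc A B` (`squarefree_iff_irreducible_sq_not_dvd_of_ne_zero`, normalize),
  and `2 deg π ≤ 12 m`.
* `card_box`: `q^(4m) * q^(6m)` pairs (`card_top`).
* `fam_card`: `q^(10m) ≤ #Fam + ∑_{d=1}^{6m} ∑_{π} #bad(π)`, where `π` runs through the (finite, `irr_card`)
  set of the monic irreducible polynomials of degree `d`; `card_bad_small` for `d ≤ 3m`,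
  `card_bad_large` for `d > 3m`; in real numbers, with `#{π} ≤ q^d / d`, the sum is at most
  `3 q^(10m) ∑_{d ≤ 3m} (1/q)^d / d + 3 q^(4m) ∑_{3m < d ≤ 6m} q^d / d ≤ q^(10m) (27/40 + 5/(4m))`,
  at most `(9/10) q^(10m)` for `m ≥ 10`.
-/

set_option autoImplicit false

open Polynomial

namespace Pool.Agent.BSDP

variable {k : Type} [Field k]

theorem disc_const_ne_zero (h2 : (2 : k) ≠ 0) (h3 : (3 : k) ≠ 0) {a b : k}
    (hφ : ∀ x : k, x ^ 3 + a * x + b ≠ 0) : 4 * a ^ 3 + 27 * b ^ 2 ≠ 0 := by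
  intro h
  by_cases ha : a = 0
  · subst ha
    have h27 : (27 : k) ≠ 0 := by
      have : (27 : k) = 3 ^ 3 := by norm_num
      rw [this]
      exact pow_ne_zero 3 h3
    have hb : b = 0 := by
      have h4 : 27 * b ^ 2 = 0 := by linear_combination h
      rcases mul_eq_zero.1 h4 with h5 | h5
      · exact absurd h5 h27
      · exact pow_eq_zero_iff (two_ne_zero) |>.1 h5
    apply hφ 0
    rw [hb]
    ring
  · apply hφ (3 * b / a)
    have h4 : (3 * b / a) ^ 3 + a * (3 * b / a) + b = b * (4 * a ^ 3 + 27 * b ^ 2) / a ^ 3 := by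
      field_simp
      ring
    rw [h4, h, mul_zero, zero_div]

theorem disc_coeff {a b : k} {m : ℕ} {A B : k[X]} (hA : Top (4 * m) a A) (hB : Top (6 * m) b B) :
    (Disc A B).natDegree ≤ 12 * m ∧ (Disc A B).coeff (12 * m) = 4 * a ^ 3 + 27 * b ^ 2 := by
  have hD : Disc A B = C 4 * A ^ 3 + C 27 * B ^ 2 := by
    unfold Disc
    simp only [map_ofNat]
  have h1 : (A ^ 3).natDegree ≤ 12 * m := by
    refine natDegree_pow_le.trans ?_
    have := hA.1
    omega
  have h2 : (B ^ 2).natDegree ≤ 12 * m := by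
    refine natDegree_pow_le.trans ?_
    have := hB.1
    omega
  have h3 : (A ^ 3).coeff (12 * m) = a ^ 3 := by
    have h4 := coeff_pow_of_natDegree_le (m := 3) hA.1
    rw [show 3 * (4 * m) = 12 * m by ring, hA.2] at h4
    exact h4
  have h5 : (B ^ 2).coeff (12 * m) = b ^ 2 := by
    have h4 := coeff_pow_of_natDegree_le (m := 2) hB.1
    rw [show 2 * (6 * m) = 12 * m by ring, hB.2] at h4
    exact h4
  rw [hD]
  constructor
  · refine (natDegree_add_le _ _).trans (max_le ?_ ?_)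
    · exact (natDegree_C_mul_le _ _).trans h1
    · exact (natDegree_C_mul_le _ _).trans h2
  · rw [coeff_add, coeff_C_mul, coeff_C_mul, h3, h5]

theorem exists_prime_sq (h2 : (2 : k) ≠ 0) (h3 : (3 : k) ≠ 0) {a b : k}
    (hφ : ∀ x : k, x ^ 3 + a * x + b ≠ 0) {m : ℕ} {A B : k[X]} (hA : Top (4 * m) a A)
    (hB : Top (6 * m) b B) (hn : ¬ Squarefree (Disc A B)) :
    ∃ π : k[X], π.Monic ∧ Irreducible π ∧ π.natDegree ≤ 6 * m ∧ π ^ 2 ∣ Disc A B := by
  classical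
  obtain ⟨hdeg, hcoef⟩ := disc_coeff hA hB
  have h0 : Disc A B ≠ 0 := by
    intro h
    rw [h, coeff_zero] at hcoef
    exact disc_const_ne_zero h2 h3 hφ hcoef.symm
  rw [squarefree_iff_irreducible_sq_not_dvd_of_ne_zero h0] at hn
  push Not at hn
  obtain ⟨x, hx, hdvd⟩ := hn
  have hass : Associated x (normalize x) := associated_normalize x
  have hd : normalize x ^ 2 ∣ Disc A B := by
    rw [pow_two]
    exact ((hass.mul_mul hass).dvd_iff_dvd_left).1 hdvd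
  refine ⟨normalize x, monic_normalize hx.ne_zero, hass.irreducible_iff.1 hx, ?_, hd⟩
  have h4 := natDegree_le_of_dvd hd h0
  rw [natDegree_pow] at h4
  omega

theorem card_box [Finite k] (a b : k) (m : ℕ) :
    Nat.card {p : k[X] × k[X] // Top (4 * m) a p.1 ∧ Top (6 * m) b p.2} =
      Nat.card k ^ (10 * m) := by
  rw [Nat.card_congr (Equiv.subtypeProdEquivProd (p := fun f : k[X] => Top (4 * m) a f)
    (q := fun f : k[X] => Top (6 * m) b f)), Nat.card_prod, card_top, card_top, ← pow_add]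
  congr 1
  ring

theorem fam_card [Finite k] (h2 : (2 : k) ≠ 0) (h3 : (3 : k) ≠ 0) (a b : k)
    (hφ : ∀ x : k, x ^ 3 + a * x + b ≠ 0) :
    ∃ m0 : ℕ, ∀ m ≥ m0,
      Nat.card k ^ (10 * m) ≤ 10 * Nat.card {p : k[X] × k[X] // Fam a b m p.1 p.2} := by
  classical
  refine ⟨10, fun m hm => ?_⟩
  set q := Nat.card k with hq
  have hq5 : 5 ≤ q := five_le_card h2 h3
  have hq5' : (5 : ℝ) ≤ (q : ℝ) := by exact_mod_cast hq5
  have hq0 : (0 : ℝ) < (q : ℝ) := by linarith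
  -- the finite set of all pairs
  have hfin : {p : k[X] × k[X] | Top (4 * m) a p.1 ∧ Top (6 * m) b p.2}.Finite := by
    have h := card_box a b m
    have h' : Nat.card {p : k[X] × k[X] // Top (4 * m) a p.1 ∧ Top (6 * m) b p.2} ≠ 0 := by
      rw [h]
      exact pow_ne_zero _ (by omega)
    exact Set.finite_coe_iff.1 (Nat.finite_of_card_ne_zero h')
  set S : Finset (k[X] × k[X]) := hfin.toFinset with hS
  have hmemS : ∀ p, p ∈ S ↔ Top (4 * m) a p.1 ∧ Top (6 * m) b p.2 := fun p => by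
    rw [hS, Set.Finite.mem_toFinset]
    rfl
  have hScard : S.card = q ^ (10 * m) := by
    rw [← card_box a b m]
    exact (Nat.subtype_card S hmemS).symm
  set F : Finset (k[X] × k[X]) := S.filter (fun p => Squarefree (Disc p.1 p.2)) with hF
  have hFcard : Nat.card {p : k[X] × k[X] // Fam a b m p.1 p.2} = F.card := by
    refine Nat.subtype_card F fun p => ?_
    rw [hF, Finset.mem_filter, hmemS]
    constructor
    · rintro ⟨⟨h4, h5⟩, h6⟩
      exact ⟨h4.1, h4.2, h5.1, h5.2, h6⟩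
    · rintro ⟨h4, h5, h6, h7, h8⟩
      exact ⟨⟨⟨h4, h5⟩, ⟨h6, h7⟩⟩, h8⟩
  let Bf : k[X] → Finset (k[X] × k[X]) := fun π => S.filter (fun p => π ^ 2 ∣ Disc p.1 p.2)
  have hBcard : ∀ π, (Bf π).card =
      Nat.card {p : k[X] × k[X] // Top (4 * m) a p.1 ∧ Top (6 * m) b p.2 ∧ π ^ 2 ∣ Disc p.1 p.2} := by
    intro π
    refine (Nat.subtype_card (Bf π) fun p => ?_).symm
    rw [Finset.mem_filter, hmemS, and_assoc]
  let Ir : ℕ → Finset k[X] := fun d => (finite_irr (k := k) d).toFinset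
  have hIr : ∀ d π, π ∈ Ir d ↔ π.Monic ∧ Irreducible π ∧ π.natDegree = d := fun d π => by
    rw [Set.Finite.mem_toFinset]
    rfl
  have hIcard : ∀ d, 0 < d → ((Ir d).card : ℝ) ≤ (q : ℝ) ^ d / d := by
    intro d hd
    have h := irr_card (k := k) d hd
    rw [Nat.subtype_card (Ir d) (hIr d)] at h
    rw [le_div_iff₀ (by exact_mod_cast hd), mul_comm]
    exact_mod_cast h
  -- covering
  have hcov : S ⊆ F ∪ (Finset.Ioc 0 (6 * m)).biUnion (fun d => (Ir d).biUnion Bf) := by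
    intro p hp
    rw [Finset.mem_union]
    by_cases hsq : Squarefree (Disc p.1 p.2)
    · left
      rw [hF, Finset.mem_filter]
      exact ⟨hp, hsq⟩
    · right
      obtain ⟨hA, hB⟩ := (hmemS p).1 hp
      obtain ⟨π, h4, h5, h6, h7⟩ := exists_prime_sq h2 h3 hφ hA hB hsq
      rw [Finset.mem_biUnion]
      refine ⟨π.natDegree, Finset.mem_Ioc.2 ⟨h5.natDegree_pos, h6⟩, ?_⟩
      rw [Finset.mem_biUnion]
      exact ⟨π, (hIr _ _).2 ⟨h4, h5, rfl⟩, Finset.mem_filter.2 ⟨hp, h7⟩⟩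
  have hcount : S.card ≤ F.card + ∑ d ∈ Finset.Ioc 0 (6 * m), ∑ π ∈ Ir d, (Bf π).card := by
    refine (Finset.card_le_card hcov).trans ((Finset.card_union_le _ _).trans ?_)
    refine Nat.add_le_add_left (Finset.card_biUnion_le.trans ?_) _
    exact Finset.sum_le_sum fun d _ => Finset.card_biUnion_le
  -- the two ranges
  have hsmall : ∀ d ∈ Finset.Icc 1 (3 * m), ((∑ π ∈ Ir d, (Bf π).card : ℕ) : ℝ) ≤
      3 * (q : ℝ) ^ (10 * m) * ((1 / (q : ℝ)) ^ d / d) := by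
    intro d hd
    rw [Finset.mem_Icc] at hd
    have hd0 : (0 : ℝ) < d := by exact_mod_cast hd.1
    have h4 : ∑ π ∈ Ir d, (Bf π).card ≤ (Ir d).card * (3 * q ^ (10 * m - 2 * d)) := by
      rw [← smul_eq_mul]
      refine Finset.sum_le_card_nsmul _ _ _ fun π hπ => ?_
      obtain ⟨h5, h6, h7⟩ := (hIr d π).1 hπ
      rw [hBcard, ← h7]
      exact card_bad_small h2 h3 a b m h5 h6 (by omega)
    have h5 : ((∑ π ∈ Ir d, (Bf π).card : ℕ) : ℝ) ≤ (Ir d).card * (3 * (q : ℝ) ^ (10 * m - 2 * d)) := by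
      exact_mod_cast h4
    refine h5.trans ?_
    have h6 := hIcard d hd.1
    have h7 : (q : ℝ) ^ (10 * m) = (q : ℝ) ^ (10 * m - 2 * d) * ((q : ℝ) ^ d * (q : ℝ) ^ d) := by
      rw [← pow_add, ← pow_add]
      congr 1
      omega
    calc ((Ir d).card : ℝ) * (3 * (q : ℝ) ^ (10 * m - 2 * d))
        ≤ ((q : ℝ) ^ d / d) * (3 * (q : ℝ) ^ (10 * m - 2 * d)) :=
          mul_le_mul_of_nonneg_right h6 (by positivity)
      _ = 3 * (q : ℝ) ^ (10 * m) * ((1 / (q : ℝ)) ^ d / d) := by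
          rw [h7, one_div, inv_pow]
          have h8 : (q : ℝ) ^ d ≠ 0 := by positivity
          field_simp
  have hlarge : ∀ d ∈ Finset.Ioc (3 * m) (6 * m), ((∑ π ∈ Ir d, (Bf π).card : ℕ) : ℝ) ≤
      3 * (q : ℝ) ^ (4 * m) * ((q : ℝ) ^ d / d) := by
    intro d hd
    rw [Finset.mem_Ioc] at hd
    have hd1 : 0 < d := by omega
    have hd0 : (0 : ℝ) < d := by exact_mod_cast hd1
    have h4 : ∑ π ∈ Ir d, (Bf π).card ≤ (Ir d).card * (3 * q ^ (4 * m)) := by
      rw [← smul_eq_mul]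
      refine Finset.sum_le_card_nsmul _ _ _ fun π hπ => ?_
      obtain ⟨h5, h6, h7⟩ := (hIr d π).1 hπ
      rw [hBcard]
      exact card_bad_large h2 h3 a b m h5 h6 (by omega) (by omega)
    have h5 : ((∑ π ∈ Ir d, (Bf π).card : ℕ) : ℝ) ≤ (Ir d).card * (3 * (q : ℝ) ^ (4 * m)) := by
      exact_mod_cast h4
    refine h5.trans ?_
    have h6 := hIcard d hd1
    calc ((Ir d).card : ℝ) * (3 * (q : ℝ) ^ (4 * m))
        ≤ ((q : ℝ) ^ d / d) * (3 * (q : ℝ) ^ (4 * m)) :=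
          mul_le_mul_of_nonneg_right h6 (by positivity)
      _ = 3 * (q : ℝ) ^ (4 * m) * ((q : ℝ) ^ d / d) := by ring
  -- the total
  have hsplit : ∑ d ∈ Finset.Ioc 0 (6 * m), ((∑ π ∈ Ir d, (Bf π).card : ℕ) : ℝ) =
      ∑ d ∈ Finset.Icc 1 (3 * m), ((∑ π ∈ Ir d, (Bf π).card : ℕ) : ℝ) +
      ∑ d ∈ Finset.Ioc (3 * m) (6 * m), ((∑ π ∈ Ir d, (Bf π).card : ℕ) : ℝ) := by
    have h4 : Finset.Icc 1 (3 * m) = Finset.Ioc 0 (3 * m) := by
      ext x
      simp only [Finset.mem_Icc, Finset.mem_Ioc]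
      omega
    rw [h4]
    exact (Finset.sum_Ioc_consecutive _ (by omega) (by omega)).symm
  have hm1 : 1 ≤ m := by omega
  have hmR : (10 : ℝ) ≤ (m : ℝ) := by exact_mod_cast hm
  have hs1 := sum_small hq5' (3 * m)
  have hs2 := sum_large hq5' hm1
  have hsum1 : ∑ d ∈ Finset.Icc 1 (3 * m), ((∑ π ∈ Ir d, (Bf π).card : ℕ) : ℝ) ≤
      3 * (q : ℝ) ^ (10 * m) * (9 / 40) := by
    refine (Finset.sum_le_sum hsmall).trans ?_
    rw [← Finset.mul_sum]
    exact mul_le_mul_of_nonneg_left hs1 (by positivity)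
  have hsum2 : ∑ d ∈ Finset.Ioc (3 * m) (6 * m), ((∑ π ∈ Ir d, (Bf π).card : ℕ) : ℝ) ≤
      3 * (q : ℝ) ^ (4 * m) * (5 / (12 * (m : ℝ)) * (q : ℝ) ^ (6 * m)) := by
    refine (Finset.sum_le_sum hlarge).trans ?_
    rw [← Finset.mul_sum]
    exact mul_le_mul_of_nonneg_left hs2 (by positivity)
  have hQ : (q : ℝ) ^ (4 * m) * (q : ℝ) ^ (6 * m) = (q : ℝ) ^ (10 * m) := by
    rw [← pow_add]
    congr 1
    omega
  have h5m : 5 / (12 * (m : ℝ)) ≤ 1 / 24 := by
    rw [div_le_div_iff₀ (by positivity) (by norm_num)]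
    linarith
  have hcountR : (S.card : ℝ) ≤ F.card +
      ∑ d ∈ Finset.Ioc 0 (6 * m), ((∑ π ∈ Ir d, (Bf π).card : ℕ) : ℝ) := by
    exact_mod_cast hcount
  rw [hScard, hsplit] at hcountR
  push_cast at hcountR hsum1 hsum2
  have hQ0 : (0 : ℝ) < (q : ℝ) ^ (10 * m) := by positivity
  have hsum2' : 3 * (q : ℝ) ^ (4 * m) * (5 / (12 * (m : ℝ)) * (q : ℝ) ^ (6 * m)) ≤
      3 * (q : ℝ) ^ (10 * m) * (1 / 24) := by
    have h6 : 3 * (q : ℝ) ^ (4 * m) * (5 / (12 * (m : ℝ)) * (q : ℝ) ^ (6 * m)) =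
        3 * (q : ℝ) ^ (10 * m) * (5 / (12 * (m : ℝ))) := by
      rw [← hQ]
      ring
    rw [h6]
    exact mul_le_mul_of_nonneg_left h5m (by positivity)
  have hfinal : (q : ℝ) ^ (10 * m) ≤ 10 * (F.card : ℝ) := by
    linarith
  rw [hFcard]
  exact_mod_cast hfinal

end Pool.Agent.BSDP
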