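import Pool.Agent.Lib.BSDP.C.Defs

/-!
Module C.Par. A parametrization of detected quintuples over a field: the binary quartic
`κ ((s² + p₁ s u + r₁ u²)² - δ (p₂ s u + r₂ u²)²)`, `δ` not a square.

For `t = par δ κ p₁ r₁ p₂ r₂` put `s = t.c + 2 κ r₁`, `n = (2 (r₁ p₂ - p₁ r₂), 2 r₂, p₂)`,
`R = r₁ p₂² - p₁ p₂ r₂ + r₂²`, `N = nn δ p₁ r₁ p₂ r₂`. Then (all by `field_simp; ring`, using
`3 * t.c = -κ (p₁² + 2 r₁ - δ p₂²)`):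
the three eigenvector equations hold, `2 n₁ n₃ + n₂² = 4 R`, `3 s² + A = 4 κ² δ R`,
`-(3 s² + 4 A) = κ² N`, `N = (p₁² - 4 r₁ - δ p₂²)² - 16 δ R`.

* `det_par`: `N` is not a square, so `R ≠ 0` (otherwise `N` is a square) and
  `(2 n₁ n₃ + n₂²)(3 s² + A) = δ (4 κ R)²` is not a square.
* `par_inj`: from `par … = par …'` with both discriminants nonsquares: `κ = κ'` (first coordinate),
  `p₁ = p₁'` (second), and `s` is a root of `X³ + A X + B` in the field, and the only one, because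
  `X³ + A X + B = (X - s) (X² + s X + s² + A)` and the discriminant `-(3 s² + 4 A)` of the second factor
  is not a square. [`s³ + A s + B = 0` by `ring`-type computation.] So `s = s'`, hence `r₁ = r₁'`; then
  `δ p₂²`, `δ p₂ r₂`, `δ r₂²` are determined by `c, d, e`, so `(p₂, r₂) = ± (p₂', r₂')`.
-/

set_option autoImplicit false

open Polynomial

namespace Pool.Agent.BSDP

variable {F : Type} [Field F]

/-- The parametrization. -/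
def par (δ κ p₁ r₁ p₂ r₂ : F) : Quin F :=
  ⟨κ, κ * p₁, -(κ * (p₁ ^ 2 + 2 * r₁ - δ * p₂ ^ 2) / 3), -(2 * κ * (p₁ * r₁ - δ * p₂ * r₂)),
    4 * κ * (r₁ ^ 2 - δ * r₂ ^ 2)⟩

/-- The norm of the discriminant of the quadratic factor. -/
def nn (δ p₁ r₁ p₂ r₂ : F) : F :=
  (p₁ ^ 2 + δ * p₂ ^ 2 - 4 * r₁) ^ 2 - δ * (2 * p₁ * p₂ - 4 * r₂) ^ 2

private theorem par_disc (h3 : (3 : F) ≠ 0) (δ κ p₁ r₁ p₂ r₂ : F) :
    -(3 * ((par δ κ p₁ r₁ p₂ r₂).c + 2 * κ * r₁) ^ 2 + 4 * (par δ κ p₁ r₁ p₂ r₂).invA) =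
      κ ^ 2 * nn δ p₁ r₁ p₂ r₂ := by
  simp only [par, Quin.invA, nn]
  field_simp
  ring

private theorem par_root (h3 : (3 : F) ≠ 0) (δ κ p₁ r₁ p₂ r₂ : F) :
    ((par δ κ p₁ r₁ p₂ r₂).c + 2 * κ * r₁) ^ 3 +
      (par δ κ p₁ r₁ p₂ r₂).invA * ((par δ κ p₁ r₁ p₂ r₂).c + 2 * κ * r₁) +
      (par δ κ p₁ r₁ p₂ r₂).invB = 0 := by
  simp only [par, Quin.invA, Quin.invB]
  field_simp
  ring

theorem det_par (h2 : (2 : F) ≠ 0) (h3 : (3 : F) ≠ 0) {δ κ p₁ r₁ p₂ r₂ : F}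
    (hδ : ¬ IsSquare δ) (hκ : κ ≠ 0) (hn : ¬ IsSquare (nn δ p₁ r₁ p₂ r₂)) :
    (par δ κ p₁ r₁ p₂ r₂).Det := by
  refine ⟨(par δ κ p₁ r₁ p₂ r₂).c + 2 * κ * r₁, 2 * (r₁ * p₂ - p₁ * r₂), 2 * r₂, p₂,
    ?_, ?_, ?_, ?_, ?_⟩
  · simp only [par]
    ring
  · simp only [par]
    field_simp
    ring
  · simp only [par]
    ring
  · rw [par_disc h3]
    rintro ⟨z, hz⟩
    apply hn
    refine ⟨z / κ, ?_⟩
    field_simp
    linear_combination hz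
  · have hR : r₁ * p₂ ^ 2 - p₁ * p₂ * r₂ + r₂ ^ 2 ≠ 0 := by
      intro hR
      apply hn
      refine ⟨p₁ ^ 2 - 4 * r₁ - δ * p₂ ^ 2, ?_⟩
      unfold nn
      linear_combination (-16 * δ) * hR
    have h4 : (2 : F) * 2 ≠ 0 := mul_ne_zero h2 h2
    have hq : (2 * (2 * (r₁ * p₂ - p₁ * r₂)) * p₂ + (2 * r₂) ^ 2) *
        (3 * ((par δ κ p₁ r₁ p₂ r₂).c + 2 * κ * r₁) ^ 2 + (par δ κ p₁ r₁ p₂ r₂).invA) =
        δ * (2 * 2 * κ * (r₁ * p₂ ^ 2 - p₁ * p₂ * r₂ + r₂ ^ 2)) ^ 2 := by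
      simp only [par, Quin.invA]
      field_simp
      ring
    rw [hq]
    rintro ⟨z, hz⟩
    apply hδ
    have h5 : 2 * 2 * κ * (r₁ * p₂ ^ 2 - p₁ * p₂ * r₂ + r₂ ^ 2) ≠ 0 :=
      mul_ne_zero (mul_ne_zero h4 hκ) hR
    refine ⟨z / (2 * 2 * κ * (r₁ * p₂ ^ 2 - p₁ * p₂ * r₂ + r₂ ^ 2)), ?_⟩
    rw [div_mul_div_comm, ← hz, eq_div_iff (mul_ne_zero h5 h5)]
    ring

theorem par_inj (h2 : (2 : F) ≠ 0) (h3 : (3 : F) ≠ 0) {δ κ p₁ r₁ p₂ r₂ κ' p₁' r₁' p₂' r₂' : F}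
    (hδ : ¬ IsSquare δ) (hκ : κ ≠ 0) (hn : ¬ IsSquare (nn δ p₁ r₁ p₂ r₂)) (hκ' : κ' ≠ 0)
    (hn' : ¬ IsSquare (nn δ p₁' r₁' p₂' r₂'))
    (h : par δ κ p₁ r₁ p₂ r₂ = par δ κ' p₁' r₁' p₂' r₂') :
    κ = κ' ∧ p₁ = p₁' ∧ r₁ = r₁' ∧ ((p₂ = p₂' ∧ r₂ = r₂') ∨ (p₂ = -p₂' ∧ r₂ = -r₂')) := by
  have hδ0 : δ ≠ 0 := by
    rintro rfl
    exact hδ ⟨0, by ring⟩
  have ha : κ = κ' := congrArg Quin.a h
  subst ha
  have hb : κ * p₁ = κ * p₁' := congrArg Quin.b h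
  have hp : p₁ = p₁' := mul_left_cancel₀ hκ hb
  subst hp
  have hs1 := par_root h3 δ κ p₁ r₁ p₂ r₂
  have hs2 := par_root h3 δ κ p₁ r₁' p₂' r₂'
  have hd1 := par_disc h3 δ κ p₁ r₁ p₂ r₂
  rw [← h] at hs2
  set t := par δ κ p₁ r₁ p₂ r₂ with ht
  have hr : r₁ = r₁' := by
    by_contra hne
    have h4 : (t.c + 2 * κ * r₁') - (t.c + 2 * κ * r₁) ≠ 0 := by
      have h5 : (t.c + 2 * κ * r₁') - (t.c + 2 * κ * r₁) = 2 * κ * (r₁' - r₁) := by ring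
      rw [h5]
      exact mul_ne_zero (mul_ne_zero h2 hκ) (sub_ne_zero.2 (Ne.symm hne))
    have h6 : ((t.c + 2 * κ * r₁') - (t.c + 2 * κ * r₁)) *
        ((t.c + 2 * κ * r₁') ^ 2 + (t.c + 2 * κ * r₁') * (t.c + 2 * κ * r₁) +
          (t.c + 2 * κ * r₁) ^ 2 + t.invA) = 0 := by
      linear_combination hs2 - hs1
    have h7 := (mul_eq_zero.1 h6).resolve_left h4
    apply hn
    refine ⟨(2 * (t.c + 2 * κ * r₁') + (t.c + 2 * κ * r₁)) / κ, ?_⟩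
    rw [div_mul_div_comm, eq_div_iff (mul_ne_zero hκ hκ)]
    linear_combination (-4) * h7 - hd1
  subst hr
  have hc : -(κ * (p₁ ^ 2 + 2 * r₁ - δ * p₂ ^ 2) / 3) =
      -(κ * (p₁ ^ 2 + 2 * r₁ - δ * p₂' ^ 2) / 3) := congrArg Quin.c h
  have hd : -(2 * κ * (p₁ * r₁ - δ * p₂ * r₂)) = -(2 * κ * (p₁ * r₁ - δ * p₂' * r₂')) :=
    congrArg Quin.d h
  have he : 4 * κ * (r₁ ^ 2 - δ * r₂ ^ 2) = 4 * κ * (r₁ ^ 2 - δ * r₂' ^ 2) :=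
    congrArg Quin.e h
  have hκδ : κ * δ ≠ 0 := mul_ne_zero hκ hδ0
  have hpp : p₂ ^ 2 = p₂' ^ 2 := by
    apply mul_left_cancel₀ hκδ
    field_simp at hc
    linear_combination κ * hc
  have hpr : p₂ * r₂ = p₂' * r₂' := by
    apply mul_left_cancel₀ (mul_ne_zero h2 hκδ)
    linear_combination hd
  have h4 : (4 : F) ≠ 0 := by
    have : (4 : F) = 2 * 2 := by norm_num
    rw [this]
    exact mul_ne_zero h2 h2
  have hrr : r₂ ^ 2 = r₂' ^ 2 := by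
    apply mul_left_cancel₀ (mul_ne_zero h4 hκδ)
    linear_combination -he
  refine ⟨rfl, rfl, rfl, ?_⟩
  rcases sq_eq_sq_iff_eq_or_eq_neg.1 hpp with h5 | h5
  · by_cases h6 : p₂' = 0
    · rcases sq_eq_sq_iff_eq_or_eq_neg.1 hrr with h7 | h7
      · exact Or.inl ⟨h5, h7⟩
      · exact Or.inr ⟨by rw [h5, h6, neg_zero], h7⟩
    · refine Or.inl ⟨h5, ?_⟩
      rw [h5] at hpr
      exact mul_left_cancel₀ h6 hpr
  · by_cases h6 : p₂' = 0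
    · rcases sq_eq_sq_iff_eq_or_eq_neg.1 hrr with h7 | h7
      · exact Or.inl ⟨by rw [h5, h6, neg_zero], h7⟩
      · exact Or.inr ⟨h5, h7⟩
    · refine Or.inr ⟨h5, ?_⟩
      rw [h5] at hpr
      apply mul_left_cancel₀ h6
      linear_combination -hpr

end Pool.Agent.BSDP
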