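import Pool.Agent.Lib.BSDP.C.Act
import Pool.Agent.Lib.BSDP.C.Cong

/-!
Module C.RepCard. The unipotent group acts freely on the quintuples of type `r`.

* `finite_box`: `finite_natDegree_le'` five times.
* `card_bd_le`: `Bd m r` is `Box ![2m - 2r, 2m - r, 2m, 2m + r, 2m + 2r]`; for `r ≤ m` the exponents
  `n i + 1` add up to `10 m + 5` (`card_natDegree_le`).
* `card_type_le`: choose for each pair `p` of the left side a quintuple `t_p`; the map
  `(p, h) ↦ (t_p).act (C 2⁻¹) h` from the pairs `(p, h)`, `h.natDegree ≤ r`, to the quintuples with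
  `Bd m r`, `Undet V` is well defined (`bd_act`, `undet_act_iff`) and injective: `invA`, `invB` of the
  image give `p` (`invA_act`, `invB_act`), and then `act_inj` gives `h`. There are `q ^ (r + 1)` such `h`.
-/

set_option autoImplicit false

open Polynomial

namespace Pool.Agent.BSDP

variable {k : Type} [Field k]

/-- `(A, B)` is represented by an undetected quintuple of type `r`. -/
def RepT (V : Finset k[X]) (m r : ℕ) (A B : k[X]) : Prop :=
  ∃ t : Quin k[X], t.a ≠ 0 ∧ t.invA = A ∧ t.invB = B ∧ Bd m r t ∧ Undet V t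

private def boxEquiv (n : Fin 5 → ℕ) : {t : Quin k[X] // Box n t} ≃
    {f : k[X] // f.natDegree ≤ n 0} × {f : k[X] // f.natDegree ≤ n 1} × {f : k[X] // f.natDegree ≤ n 2} ×
      {f : k[X] // f.natDegree ≤ n 3} × {f : k[X] // f.natDegree ≤ n 4} where
  toFun t := (⟨t.1.a, t.2.1⟩, ⟨t.1.b, t.2.2.1⟩, ⟨t.1.c, t.2.2.2.1⟩, ⟨t.1.d, t.2.2.2.2.1⟩, ⟨t.1.e, t.2.2.2.2.2⟩)
  invFun x := ⟨⟨x.1.1, x.2.1.1, x.2.2.1.1, x.2.2.2.1.1, x.2.2.2.2.1⟩,
    x.1.2, x.2.1.2, x.2.2.1.2, x.2.2.2.1.2, x.2.2.2.2.2⟩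
  left_inv _ := rfl
  right_inv _ := rfl

private theorem finite_sub [Finite k] (n : ℕ) : Finite {f : k[X] // f.natDegree ≤ n} :=
  (finite_natDegree_le' (k := k) n).to_subtype

theorem finite_box [Finite k] (n : Fin 5 → ℕ) : {t : Quin k[X] | Box n t}.Finite := by
  have := fun n => finite_sub (k := k) n
  have h : Finite {t : Quin k[X] // Box n t} := Finite.of_equiv _ (boxEquiv n).symm
  exact Set.finite_coe_iff.1 h

theorem card_box_eq [Finite k] (n : Fin 5 → ℕ) :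
    Nat.card {t : Quin k[X] // Box n t} = Nat.card k ^ (n 0 + n 1 + n 2 + n 3 + n 4 + 5) := by
  rw [Nat.card_congr (boxEquiv n)]
  simp only [Nat.card_prod, card_natDegree_le, ← pow_add]
  congr 1
  ring

theorem card_bd [Finite k] {m r : ℕ} (hr : r ≤ m) :
    Nat.card {t : Quin k[X] // Bd m r t} = Nat.card k ^ (10 * m + 5) := by
  have h := card_box_eq (k := k) ![2 * m - 2 * r, 2 * m - r, 2 * m, 2 * m + r, 2 * m + 2 * r]
  have e : (![2 * m - 2 * r, 2 * m - r, 2 * m, 2 * m + r, 2 * m + 2 * r] : Fin 5 → ℕ) 0 +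
      (![2 * m - 2 * r, 2 * m - r, 2 * m, 2 * m + r, 2 * m + 2 * r] : Fin 5 → ℕ) 1 +
      (![2 * m - 2 * r, 2 * m - r, 2 * m, 2 * m + r, 2 * m + 2 * r] : Fin 5 → ℕ) 2 +
      (![2 * m - 2 * r, 2 * m - r, 2 * m, 2 * m + r, 2 * m + 2 * r] : Fin 5 → ℕ) 3 +
      (![2 * m - 2 * r, 2 * m - r, 2 * m, 2 * m + r, 2 * m + 2 * r] : Fin 5 → ℕ) 4 + 5 = 10 * m + 5 := by
    show (2 * m - 2 * r) + (2 * m - r) + 2 * m + (2 * m + r) + (2 * m + 2 * r) + 5 = 10 * m + 5
    omega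
  rw [e] at h
  exact h

private theorem finite_bd [Finite k] (m r : ℕ) : {t : Quin k[X] | Bd m r t}.Finite :=
  finite_box ![2 * m - 2 * r, 2 * m - r, 2 * m, 2 * m + r, 2 * m + 2 * r]

theorem finite_repT [Finite k] (V : Finset k[X]) (m r : ℕ) :
    {p : k[X] × k[X] | RepT V m r p.1 p.2}.Finite := by
  refine ((finite_bd (k := k) m r).image fun t => (t.invA, t.invB)).subset ?_
  rintro ⟨A, B⟩ ⟨t, -, h1, h2, h3, -⟩
  exact ⟨t, h3, Prod.ext h1 h2⟩

theorem card_type_le [Finite k] (h2 : (2 : k) ≠ 0) (V : Finset k[X]) {m r : ℕ} (hr : r ≤ m) :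
    Nat.card k ^ (r + 1) * Nat.card {p : k[X] × k[X] // RepT V m r p.1 p.2} ≤
      Nat.card {t : Quin k[X] // Bd m r t ∧ Undet V t} := by
  have hi : (2 : k[X]) * C 2⁻¹ = 1 := by
    rw [show (2 : k[X]) = C 2 from rfl, ← C_mul, mul_inv_cancel₀ h2, C_1]
  have : Finite {t : Quin k[X] // Bd m r t ∧ Undet V t} :=
    ((finite_bd (k := k) m r).subset fun t ht => ht.1 : {t : Quin k[X] | Bd m r t ∧ Undet V t}.Finite).to_subtype
  choose t ht using fun p : {p : k[X] × k[X] // RepT V m r p.1 p.2} => p.2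
  let f : {h : k[X] // h.natDegree ≤ r} × {p : k[X] × k[X] // RepT V m r p.1 p.2} →
      {t : Quin k[X] // Bd m r t ∧ Undet V t} := fun x =>
    ⟨(t x.2).act (C 2⁻¹) x.1.1, bd_act hr x.1.2 (ht x.2).2.2.2.1,
      (undet_act_iff h2 V x.1.1 (t x.2)).2 (ht x.2).2.2.2.2⟩
  have hf : Function.Injective f := by
    rintro ⟨h, p⟩ ⟨h', p'⟩ he
    have he' : (t p).act (C 2⁻¹) h.1 = (t p').act (C 2⁻¹) h'.1 := congrArg Subtype.val he
    have hA := congrArg Quin.invA he'
    have hB := congrArg Quin.invB he'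
    rw [invA_act hi, invA_act hi, (ht p).2.1, (ht p').2.1] at hA
    rw [invB_act hi, invB_act hi, (ht p).2.2.1, (ht p').2.2.1] at hB
    have hp : p = p' := Subtype.ext (Prod.ext hA hB)
    subst hp
    have hh := act_inj (ht p).1 he'
    rw [Prod.mk.injEq]
    exact ⟨Subtype.ext hh, rfl⟩
  have := Nat.card_le_card_of_injective f hf
  rwa [Nat.card_prod, card_natDegree_le] at this

end Pool.Agent.BSDP
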